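import Mathlib

/-!
Linear positions for multipartite tournaments without short cycles, and for cyclically
tripartite structures whose only directed triangles are rare.
-/

namespace Pool.Agent.V8H30.Wqo

universe u

/-- A relation comparing exactly the pairs that are not `C`-equivalent, without directed
3-cycles and without 4-cycles between two classes, admits a strictly monotone rank. -/
theorem mt_pos {W : Type u} [Fintype W] (C L : W → W → Prop)
    (hCs : ∀ u v, C u v → C v u) (hCt : ∀ u v w, C u v → C v w → C u w)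
    (hLC : ∀ u v, L u v → ¬ C u v) (htot : ∀ u v, ¬ C u v → L u v ∨ L v u)
    (hasym : ∀ u v, L u v → ¬ L v u)
    (h3 : ∀ u v w, L u v → L v w → ¬ L w u)
    (h4 : ∀ u v w x, C u w → C v x → L u v → L v w → L w x → ¬ L x u) :
    ∃ pos : W → ℕ, (∀ u v, L u v → pos u < pos v) ∧
      (∀ u v, (∀ y, L y u ↔ L y v) → pos u = pos v) := by
  classical
  have key : ∀ u v, Relation.TransGen L u v →
      (¬ C u v ∧ L u v) ∨ (C u v ∧ ∃ x, L u x ∧ L x v) := by
    intro u v huv
    induction huv with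
    | single h => exact Or.inl ⟨hLC _ _ h, h⟩
    | @tail v w _ hvw ih =>
      by_cases huw : C u w
      · right
        refine ⟨huw, ?_⟩
        rcases ih with ⟨_, hL⟩ | ⟨hC, _⟩
        · exact ⟨v, hL, hvw⟩
        · exact absurd (hCt _ _ _ (hCs _ _ hC) huw) (hLC _ _ hvw)
      · left
        refine ⟨huw, ?_⟩
        rcases htot _ _ huw with h | h
        · exact h
        · exfalso
          rcases ih with ⟨_, hL⟩ | ⟨hC, x, hux, hxv⟩
          · exact h3 _ _ _ hL hvw h
          · by_cases hxw : C x w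
            · exact h4 _ _ _ _ hC hxw hux hxv hvw h
            · rcases htot _ _ hxw with h' | h'
              · exact h3 _ _ _ hux h' h
              · exact h3 _ _ _ hxv hvw h'
  have hirr : ∀ u, ¬ Relation.TransGen L u u := by
    intro u hu
    rcases key u u hu with ⟨_, h⟩ | ⟨_, x, h1, h2⟩
    · exact hasym _ _ h h
    · exact hasym _ _ h1 h2
  refine ⟨fun v => (Finset.univ.filter (fun x => Relation.TransGen L x v)).card, ?_, ?_⟩
  · intro u v huv
    apply Finset.card_lt_card
    rw [Finset.ssubset_iff_of_subset]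
    · refine ⟨u, ?_, ?_⟩
      · simpa using Relation.TransGen.single huv
      · simpa using hirr u
    · intro x hx
      simp only [Finset.mem_filter, Finset.mem_univ, true_and] at hx ⊢
      exact hx.tail huv
  · intro u v huv
    have : ∀ x, Relation.TransGen L x u ↔ Relation.TransGen L x v := by
      intro x
      constructor
      · intro h
        rcases Relation.TransGen.tail'_iff.1 h with ⟨y, hy, hyu⟩
        exact Relation.TransGen.tail'_iff.2 ⟨y, hy, (huv y).1 hyu⟩
      · intro h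
        rcases Relation.TransGen.tail'_iff.1 h with ⟨y, hy, hyu⟩
        exact Relation.TransGen.tail'_iff.2 ⟨y, hy, (huv y).2 hyu⟩
    simp only [this]

/-! Arithmetic of the three classes. -/

theorem cl_cases : ∀ i j : Fin 3, i ≠ j → j = i + 1 ∨ i = j + 1 := by decide

theorem cl_not : ∀ i j : Fin 3, j = i + 1 → ¬ i = j + 1 := by decide

theorem cl_ne : ∀ i j : Fin 3, j = i + 1 → i ≠ j := by decide

theorem cl_third : ∀ i j : Fin 3, ∃ k : Fin 3, k ≠ i ∧ k ≠ j := by decide

theorem cl_three : ∀ i j k : Fin 3, i ≠ j → j ≠ k → i ≠ k →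
    (j = i + 1 ∧ k = j + 1) ∨ (k = i + 1 ∧ j = k + 1) := by
  intro i j k
  fin_cases i <;> fin_cases j <;> fin_cases k <;> simp

theorem cl_cyc : ∀ i j k : Fin 3, j = i + 1 → k = j + 1 → i = k + 1 := by decide

theorem cl_cyc_ne : ∀ i j k : Fin 3, j = i + 1 → k = j + 1 → i ≠ k := by decide

section Tri

variable {W : Type u} (G : SimpleGraph W) (cl : W → Fin 3)

/-- The cyclic orientation. -/
def Lr (u v : W) : Prop :=
  (cl v = cl u + 1 ∧ G.Adj u v) ∨ (cl u = cl v + 1 ∧ ¬ G.Adj u v)

/-- Transversal triangles. -/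
def Tri (a b c : W) : Prop :=
  cl b = cl a + 1 ∧ cl c = cl b + 1 ∧ G.Adj a b ∧ G.Adj b c ∧ G.Adj c a

/-- `x` is inside the triangle `a b c`, in the class of `a`. -/
def Ins (a b c x : W) : Prop := cl x = cl a ∧ ¬ G.Adj x b ∧ ¬ G.Adj x c

/-- The block of the triangle `a b c`. -/
def Bl (a b c x : W) : Prop :=
  x = a ∨ x = b ∨ x = c ∨ Ins G cl a b c x ∨ Ins G cl b c a x ∨ Ins G cl c a b x

variable {G cl}

theorem Tri.rot {a b c : W} (h : Tri G cl a b c) : Tri G cl b c a :=
  ⟨h.2.1, cl_cyc _ _ _ h.1 h.2.1, h.2.2.2.1, h.2.2.2.2, h.2.2.1⟩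

theorem Bl.rot {a b c x : W} (h : Bl G cl a b c x) : Bl G cl b c a x := by
  unfold Bl at *; tauto

theorem Bl.rot_iff {a b c x : W} : Bl G cl a b c x ↔ Bl G cl b c a x := by
  unfold Bl; tauto

theorem Lr.cl_ne {u v : W} (h : Lr G cl u v) : cl u ≠ cl v := by
  rcases h with ⟨h, _⟩ | ⟨h, _⟩
  · exact Wqo.cl_ne _ _ h
  · exact (Wqo.cl_ne _ _ h).symm

theorem Lr.asymm {u v : W} (h : Lr G cl u v) : ¬ Lr G cl v u := by
  rintro h'
  rcases h with ⟨h1, h2⟩ | ⟨h1, h2⟩ <;> rcases h' with ⟨h3, h4⟩ | ⟨h3, h4⟩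
  · exact cl_not _ _ h1 h3
  · exact h4 h2.symm
  · exact h2 h4.symm
  · exact cl_not _ _ h1 h3

theorem Lr.total {u v : W} (h : cl u ≠ cl v) : Lr G cl u v ∨ Lr G cl v u := by
  rcases cl_cases _ _ h with h1 | h1
  · by_cases h2 : G.Adj u v
    · exact Or.inl (Or.inl ⟨h1, h2⟩)
    · exact Or.inr (Or.inr ⟨h1, fun h => h2 h.symm⟩)
  · by_cases h2 : G.Adj u v
    · exact Or.inr (Or.inl ⟨h1, h2.symm⟩)
    · exact Or.inl (Or.inr ⟨h1, h2⟩)

/-- The hypotheses of the tripartite lemma (no independent transversal). -/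
structure TriHyp (G : SimpleGraph W) (cl : W → Fin 3) : Prop where
  t1 : ∀ a b c, cl b = cl a + 1 → cl c = cl b + 1 → ¬ G.Adj a b → ¬ G.Adj b c →
    ¬ G.Adj c a → False
  t2 : ∀ u v u' v', cl u = cl u' → cl v = cl v' → cl u ≠ cl v → G.Adj u v → G.Adj u' v' →
    ¬ G.Adj u v' → ¬ G.Adj u' v → False
  t3 : ∀ a b c b' c', Tri G cl a b c → Tri G cl a b' c' → b = b' ∧ c = c'

variable (H : TriHyp G cl)
include H

theorem TriHyp.dich {a b c v : W} (ht : Tri G cl a b c) (hv : ¬ Bl G cl a b c v)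
    (hc : cl v = cl a) :
    (∀ x, Bl G cl a b c x → cl x ≠ cl v → Lr G cl v x) ∨
    (∀ x, Bl G cl a b c x → cl x ≠ cl v → Lr G cl x v) := by
  have hva : v ≠ a := fun h => hv (Or.inl h)
  have hins : ¬ Ins G cl a b c v := fun h => hv (Or.inr (Or.inr (Or.inr (Or.inl h))))
  have hor : G.Adj v b ∨ G.Adj v c := by
    by_contra hcon
    push Not at hcon
    exact hins ⟨hc, hcon.1, hcon.2⟩
  have hnb : ¬ (G.Adj v b ∧ G.Adj v c) := by
    rintro ⟨h1, h2⟩
    have t1 : Tri G cl b c a := ht.rot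
    have t2 : Tri G cl b c v := ⟨ht.2.1, by rw [hc]; exact ht.rot.2.1, ht.2.2.2.1, h2.symm, h1⟩
    exact hva (H.t3 b c a c v t1 t2).2.symm
  obtain ⟨k1, k2, ab, bc, ca⟩ := ht
  have k3 : cl a = cl c + 1 := cl_cyc _ _ _ k1 k2
  have kba : cl b ≠ cl a := (cl_ne _ _ k1).symm
  have kcb : cl c ≠ cl b := (cl_ne _ _ k2).symm
  have kca : cl c ≠ cl a := cl_ne _ _ k3
  rcases hor with h1 | h1
  · left
    have h2 : ¬ G.Adj v c := fun h => hnb ⟨h1, h⟩
    intro x hx hxv
    rcases hx with rfl | rfl | rfl | hx | hx | hx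
    · exact absurd hc.symm hxv
    · exact Or.inl ⟨by rw [hc]; exact k1, h1⟩
    · exact Or.inr ⟨by rw [hc]; exact k3, h2⟩
    · exact absurd (hx.1.trans hc.symm) hxv
    · obtain ⟨hx1, hx2, hx3⟩ := hx
      refine Or.inl ⟨by rw [hc, hx1]; exact k1, ?_⟩
      by_contra hvx
      exact H.t1 v x c (by rw [hc, hx1]; exact k1) (by rw [hx1]; exact k2) hvx hx2
        (fun h => h2 h.symm)
    · obtain ⟨hx1, hx2, hx3⟩ := hx
      refine Or.inr ⟨by rw [hc, hx1]; exact k3, ?_⟩
      intro hvx
      exact H.t2 v x a c hc hx1 (by rw [hc, hx1]; exact kca.symm) hvx ca.symm h2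
        (fun h => hx2 h.symm)
  · right
    have h2 : ¬ G.Adj v b := fun h => hnb ⟨h, h1⟩
    intro x hx hxv
    rcases hx with rfl | rfl | rfl | hx | hx | hx
    · exact absurd hc.symm hxv
    · exact Or.inr ⟨by rw [hc]; exact k1, fun h => h2 h.symm⟩
    · exact Or.inl ⟨by rw [hc]; exact k3, h1.symm⟩
    · exact absurd (hx.1.trans hc.symm) hxv
    · obtain ⟨hx1, hx2, hx3⟩ := hx
      refine Or.inr ⟨by rw [hc, hx1]; exact k1, ?_⟩
      intro hvx
      exact H.t2 v x a b hc hx1 (by rw [hc, hx1]; exact kba.symm) hvx.symm ab h2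
        (fun h => hx3 h.symm)
    · obtain ⟨hx1, hx2, hx3⟩ := hx
      refine Or.inl ⟨by rw [hc, hx1]; exact k3, ?_⟩
      by_contra hvx
      exact H.t1 v b x (by rw [hc]; exact k1) (by rw [hx1]; exact k2) h2
        (fun h => hx3 h.symm) hvx

theorem TriHyp.dich' {a b c v : W} (ht : Tri G cl a b c) (hv : ¬ Bl G cl a b c v) :
    (∀ x, Bl G cl a b c x → cl x ≠ cl v → Lr G cl v x) ∨
    (∀ x, Bl G cl a b c x → cl x ≠ cl v → Lr G cl x v) := by
  have hcases : cl v = cl a ∨ cl v = cl b ∨ cl v = cl c := by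
    obtain ⟨k1, k2, -⟩ := ht
    have : ∀ i j k l : Fin 3, j = i + 1 → k = j + 1 → l = i ∨ l = j ∨ l = k := by decide
    exact this _ _ _ _ k1 k2
  rcases hcases with h | h | h
  · exact H.dich ht hv h
  · have := H.dich ht.rot (fun hh => hv (Bl.rot_iff.2 hh)) h
    simpa only [← Bl.rot_iff] using this
  · have := H.dich ht.rot.rot (fun hh => hv (Bl.rot_iff.2 (Bl.rot_iff.2 hh))) h
    simpa only [← Bl.rot_iff (a := b), ← Bl.rot_iff (a := a)] using this

/-- Consistency of a triangle block towards an outer vertex. -/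
theorem TriHyp.after {a b c v x x' : W} (ht : Tri G cl a b c) (hv : ¬ Bl G cl a b c v)
    (hx : Bl G cl a b c x) (hx' : Bl G cl a b c x') (hL : Lr G cl x v) (hc : cl x' ≠ cl v) :
    Lr G cl x' v := by
  rcases H.dich' ht hv with h | h
  · exact absurd hL (h x hx hL.cl_ne).asymm
  · exact h x' hx' hc

theorem TriHyp.before {a b c v x x' : W} (ht : Tri G cl a b c) (hv : ¬ Bl G cl a b c v)
    (hx : Bl G cl a b c x) (hx' : Bl G cl a b c x') (hL : Lr G cl v x) (hc : cl x' ≠ cl v) :
    Lr G cl v x' := by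
  rcases H.dich' ht hv with h | h
  · exact h x' hx' hc
  · exact absurd hL (h x hx hL.cl_ne.symm).asymm

/-- Inner vertices of a triangle block do not lie on triangles. -/
theorem TriHyp.ins_not_tri {a b c b' c' x : W} (ht : Tri G cl a b c) (hx : Ins G cl a b c x)
    (ht' : Tri G cl x b' c') : False := by
  obtain ⟨k1, k2, ab, bc, ca⟩ := ht
  have k3 : cl a = cl c + 1 := cl_cyc _ _ _ k1 k2
  obtain ⟨l1, l2, xb, bc', cx⟩ := ht'
  have l3 : cl x = cl c' + 1 := cl_cyc _ _ _ l1 l2
  obtain ⟨hx1, hx2, hx3⟩ := hx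
  have hb : cl b' = cl b := by rw [l1, k1, hx1]
  have hc : cl c' = cl c := by rw [l2, k2, hb]
  have nba : cl b ≠ cl a := (cl_ne _ _ k1).symm
  have ncb : cl c ≠ cl b := (cl_ne _ _ k2).symm
  have nca : cl c ≠ cl a := cl_ne _ _ k3
  have hbl : Bl G cl a b c x := Or.inr (Or.inr (Or.inr (Or.inl ⟨hx1, hx2, hx3⟩)))
  have hb' : ¬ Bl G cl a b c b' := by
    rintro (h | h | h | h | h | h)
    · rw [h] at hb; exact nba hb.symm
    · rw [h] at xb; exact hx2 xb
    · rw [h] at hb; exact ncb hb
    · exact nba (hb.symm.trans h.1)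
    · exact H.t2 x b' a b hx1 hb (by rw [hx1, hb]; exact nba.symm) xb ab hx2
        (fun hh => h.2.2 hh.symm)
    · exact ncb (h.1.symm.trans hb)
  have hc' : ¬ Bl G cl a b c c' := by
    rintro (h | h | h | h | h | h)
    · rw [h] at hc; exact nca hc.symm
    · rw [h] at hc; exact ncb hc.symm
    · rw [h] at cx; exact hx3 cx.symm
    · exact nca (hc.symm.trans h.1)
    · exact ncb (hc.symm.trans h.1)
    · exact H.t2 x c' a c hx1 hc (by rw [hx1, hc]; exact nca.symm) cx.symm ca.symm hx3
        (fun hh => h.2.1 hh.symm)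
  have T : Tri G cl a b c := ⟨k1, k2, ab, bc, ca⟩
  have hL1 : Lr G cl x b' := Or.inl ⟨l1, xb⟩
  have hL2 : Lr G cl c' x := Or.inl ⟨l3, cx⟩
  have h1 : Lr G cl a b' := H.after T hb' hbl (Or.inl rfl) hL1 (by rw [hb]; exact nba.symm)
  have h2 : Lr G cl c' a := H.before T hc' hbl (Or.inl rfl) hL2 (by rw [hc]; exact nca.symm)
  have hab' : G.Adj a b' := by
    rcases h1 with h | h
    · exact h.2
    · exact absurd h.1 (cl_not _ _ (by rw [hb]; exact k1))
  have hca' : G.Adj c' a := by
    rcases h2 with h | h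
    · exact h.2
    · exact absurd h.1 (cl_not _ _ (by rw [hc]; exact k3))
  have T' : Tri G cl a b' c' := ⟨by rw [hb]; exact k1, l2, hab', bc', hca'⟩
  exact hb' (Or.inr (Or.inl (H.t3 a b c b' c' T T').1.symm))

/-- Two triangles sharing a block vertex have equal blocks (first normal form). -/
theorem TriHyp.share {a b c a' b' c' x : W} (ht : Tri G cl a b c) (ht' : Tri G cl a' b' c')
    (ha : cl a = cl x) (ha' : cl a' = cl x) (hx : Bl G cl a b c x) (hx' : Bl G cl a' b' c' x) :
    a = a' ∧ b = b' ∧ c = c' := by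
  obtain ⟨k1, k2, ab, bc, ca⟩ := id ht
  have k3 : cl a = cl c + 1 := cl_cyc _ _ _ k1 k2
  obtain ⟨l1, l2, ab', bc', ca'⟩ := id ht'
  have l3 : cl a' = cl c' + 1 := cl_cyc _ _ _ l1 l2
  have hb : cl b' = cl b := by rw [l1, k1, ha, ha']
  have hc : cl c' = cl c := by rw [l2, k2, hb]
  have nba : cl b ≠ cl a := (cl_ne _ _ k1).symm
  have ncb : cl c ≠ cl b := (cl_ne _ _ k2).symm
  have nca : cl c ≠ cl a := cl_ne _ _ k3
  have red : ∀ {a b c : W}, Tri G cl a b c → cl a = cl x → Bl G cl a b c x →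
      x = a ∨ Ins G cl a b c x := by
    intro a b c ht ha hx
    obtain ⟨k1, k2, -⟩ := ht
    have k3 : cl a = cl c + 1 := cl_cyc _ _ _ k1 k2
    rcases hx with h | h | h | h | h | h
    · exact Or.inl h
    · exact absurd (ha.trans (by rw [h])) (cl_ne _ _ k1)
    · exact absurd (ha.trans (by rw [h])).symm (cl_ne _ _ k3)
    · exact Or.inr h
    · exact absurd (ha.trans h.1) (cl_ne _ _ k1)
    · exact absurd (ha.trans h.1).symm (cl_ne _ _ k3)
  rcases red ht ha hx with h | h
  · rcases red ht' ha' hx' with h' | h'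
    · have haa : a = a' := h.symm.trans h'
      subst haa
      exact ⟨rfl, H.t3 _ _ _ _ _ ht ht'⟩
    · rw [h] at h'
      exact (H.ins_not_tri ht' h' ht).elim
  · rcases red ht' ha' hx' with h' | h'
    · rw [h'] at h
      exact (H.ins_not_tri ht h ht').elim
    · -- both inner
      by_cases haa : a = a'
      · subst haa
        exact ⟨rfl, H.t3 _ _ _ _ _ ht ht'⟩
      exfalso
      have hbx : Bl G cl a b c x := hx
      have hbx' : Bl G cl a' b' c' x := hx'
      have nb' : ¬ Bl G cl a b c b' := by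
        rintro (e | e | e | e | e | e)
        · rw [e] at hb; exact nba hb.symm
        · have t1 := ht.rot
          have t2 := ht'.rot
          rw [e] at t2
          exact haa (H.t3 _ _ _ _ _ t1 t2).2
        · rw [e] at hb; exact ncb hb
        · exact nba (hb.symm.trans e.1)
        · exact H.ins_not_tri ht.rot e ht'.rot
        · exact ncb (e.1.symm.trans hb)
      have nc' : ¬ Bl G cl a b c c' := by
        rintro (e | e | e | e | e | e)
        · rw [e] at hc; exact nca hc.symm
        · rw [e] at hc; exact ncb hc.symm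
        · have t1 := ht.rot.rot
          have t2 := ht'.rot.rot
          rw [e] at t2
          exact haa (H.t3 _ _ _ _ _ t1 t2).1
        · exact nca (hc.symm.trans e.1)
        · exact ncb (hc.symm.trans e.1)
        · exact H.ins_not_tri ht.rot.rot e ht'.rot.rot
      have na : ¬ Bl G cl a' b' c' a := by
        rintro (e | e | e | e | e | e)
        · exact haa e
        · rw [e, hb] at nba; exact nba rfl
        · rw [e, hc] at nca; exact nca rfl
        · exact H.ins_not_tri ht' e ht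
        · exact nba (hb.symm.trans e.1.symm)
        · exact nca (hc.symm.trans e.1.symm)
      -- `b'` is before the block, `c'` after
      have hLb : Lr G cl b' x := Or.inr ⟨by rw [← ha', l1], fun hh => h'.2.1 hh.symm⟩
      have hLc : Lr G cl x c' := Or.inr ⟨by rw [← ha', l3], h'.2.2⟩
      have hc1 : Lr G cl a c' := H.after ht nc' hbx (Or.inl rfl) hLc (by rw [hc]; exact nca.symm)
      have hb1 : Lr G cl b' a := H.before ht nb' hbx (Or.inl rfl) hLb
        (by rw [hb]; exact nba.symm)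
      have := H.after ht' na (Or.inr (Or.inl rfl)) (Or.inr (Or.inr (Or.inl rfl))) hb1
        (by rw [hc]; exact nca)
      exact this.asymm hc1

/-- The block equivalence. -/
def SameB (G : SimpleGraph W) (cl : W → Fin 3) (u v : W) : Prop :=
  u = v ∨ ∃ a b c, Tri G cl a b c ∧ Bl G cl a b c u ∧ Bl G cl a b c v

omit H in
theorem SameB.symm {u v : W} (h : SameB G cl u v) : SameB G cl v u := by
  rcases h with h | ⟨a, b, c, h1, h2, h3⟩
  · exact Or.inl h.symm
  · exact Or.inr ⟨a, b, c, h1, h3, h2⟩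

omit H in
/-- A triangle block can be rotated to start in the class of any vertex. -/
theorem Tri.normal {a b c : W} (x : W) (ht : Tri G cl a b c) :
    ∃ a' b' c', Tri G cl a' b' c' ∧ cl a' = cl x ∧
      ∀ y, Bl G cl a b c y ↔ Bl G cl a' b' c' y := by
  have hcases : cl x = cl a ∨ cl x = cl b ∨ cl x = cl c := by
    obtain ⟨k1, k2, -⟩ := ht
    have : ∀ i j k l : Fin 3, j = i + 1 → k = j + 1 → l = i ∨ l = j ∨ l = k := by decide
    exact this _ _ _ _ k1 k2
  rcases hcases with h | h | h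
  · exact ⟨a, b, c, ht, h.symm, fun y => Iff.rfl⟩
  · exact ⟨b, c, a, ht.rot, h.symm, fun y => Bl.rot_iff⟩
  · exact ⟨c, a, b, ht.rot.rot, h.symm, fun y => Bl.rot_iff.trans Bl.rot_iff⟩

theorem TriHyp.sameB_bl {a b c u v : W} (ht : Tri G cl a b c) (hu : Bl G cl a b c u)
    (huv : SameB G cl u v) : Bl G cl a b c v := by
  rcases huv with rfl | ⟨a', b', c', ht', hu', hv'⟩
  · exact hu
  · obtain ⟨a₁, b₁, c₁, t₁, e₁, f₁⟩ := ht.normal u
    obtain ⟨a₂, b₂, c₂, t₂, e₂, f₂⟩ := ht'.normal u
    obtain ⟨r1, r2, r3⟩ := H.share t₁ t₂ e₁ e₂ ((f₁ u).1 hu) ((f₂ u).1 hu')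
    subst r1 r2 r3
    exact (f₁ v).2 ((f₂ v).1 hv')

theorem TriHyp.sameB_trans {u v w : W} (huv : SameB G cl u v) (hvw : SameB G cl v w) :
    SameB G cl u w := by
  rcases huv with rfl | ⟨a, b, c, ht, hu, hv⟩
  · exact hvw
  · exact Or.inr ⟨a, b, c, ht, hu, H.sameB_bl ht hv hvw⟩

/-- Consistency of the orientation between different blocks. -/
theorem TriHyp.cons {u u' v v' : W} (hu : SameB G cl u u') (hv : SameB G cl v v')
    (hne : ¬ SameB G cl u v) (hL : Lr G cl u v) (hc : cl u' ≠ cl v') : Lr G cl u' v' := by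
  rcases hu with rfl | ⟨a, b, c, ht, hu, hu'⟩
  · rcases hv with rfl | ⟨a', b', c', ht', hv, hv'⟩
    · exact hL
    · refine H.before ht' (fun h => hne (Or.inr ⟨a', b', c', ht', h, hv⟩)) hv hv' hL hc.symm
  · rcases hv with rfl | ⟨a', b', c', ht', hv, hv'⟩
    · exact H.after ht (fun h => hne (Or.inr ⟨a, b, c, ht, hu, h⟩)) hu hu' hL hc
    · have hvn : ∀ y, Bl G cl a' b' c' y → ¬ Bl G cl a b c y := by
        intro y hy hy'
        apply hne
        exact H.sameB_trans (Or.inr ⟨a, b, c, ht, hu, hy'⟩) (Or.inr ⟨a', b', c', ht', hy, hv⟩)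
      have hun : ∀ y, Bl G cl a b c y → ¬ Bl G cl a' b' c' y := fun y h1 h2 => hvn y h2 h1
      have hx : ∃ x, Bl G cl a b c x ∧ cl x ≠ cl v ∧ cl x ≠ cl v' := by
        obtain ⟨k, hk1, hk2⟩ := cl_third (cl v) (cl v')
        have : ∀ i j m l : Fin 3, j = i + 1 → m = j + 1 → l = i ∨ l = j ∨ l = m := by decide
        rcases this _ _ _ k ht.1 ht.2.1 with h | h | h
        · exact ⟨a, Or.inl rfl, h ▸ hk1, h ▸ hk2⟩
        · exact ⟨b, Or.inr (Or.inl rfl), h ▸ hk1, h ▸ hk2⟩
        · exact ⟨c, Or.inr (Or.inr (Or.inl rfl)), h ▸ hk1, h ▸ hk2⟩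
      obtain ⟨x, hx, hx1, hx2⟩ := hx
      have e1 : Lr G cl x v := H.after ht (hvn v hv) hu hx hL hx1
      have e2 : Lr G cl x v' := H.before ht' (hun x hx) hv hv' e1 hx2.symm
      exact H.after ht (hvn v' hv') hx hu' e2 hc

/-- A vertex which is alone in its block. -/
def Sing (G : SimpleGraph W) (cl : W → Fin 3) (u : W) : Prop := ∀ x, SameB G cl u x → x = u

omit H in
theorem not_sing {u : W} (h : ¬ Sing G cl u) (k : Fin 3) :
    ∃ x, SameB G cl u x ∧ cl x = k := by
  unfold Sing at h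
  push Not at h
  obtain ⟨x, hx, hxu⟩ := h
  rcases hx with rfl | ⟨a, b, c, ht, hu, -⟩
  · exact absurd rfl hxu
  · have : ∀ i j m l : Fin 3, j = i + 1 → m = j + 1 → l = i ∨ l = j ∨ l = m := by decide
    rcases this _ _ _ k ht.1 ht.2.1 with h | h | h
    · exact ⟨a, Or.inr ⟨a, b, c, ht, hu, Or.inl rfl⟩, h.symm⟩
    · exact ⟨b, Or.inr ⟨a, b, c, ht, hu, Or.inr (Or.inl rfl)⟩, h.symm⟩
    · exact ⟨c, Or.inr ⟨a, b, c, ht, hu, Or.inr (Or.inr (Or.inl rfl))⟩, h.symm⟩

/-- Orientation between blocks. -/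
def Lb (G : SimpleGraph W) (cl : W → Fin 3) (u v : W) : Prop :=
  ¬ SameB G cl u v ∧ ∃ u' v', SameB G cl u u' ∧ SameB G cl v v' ∧ Lr G cl u' v'

/-- Incomparability. -/
def Cb (G : SimpleGraph W) (cl : W → Fin 3) (u v : W) : Prop :=
  SameB G cl u v ∨ (Sing G cl u ∧ Sing G cl v ∧ cl u = cl v)

theorem TriHyp.lb_lr {u v : W} (h : Lb G cl u v) (hc : cl u ≠ cl v) : Lr G cl u v := by
  obtain ⟨h1, u', v', hu, hv, hL⟩ := h
  exact H.cons hu.symm hv.symm
    (fun hh => h1 (H.sameB_trans hu (H.sameB_trans hh hv.symm))) hL hc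

theorem TriHyp.lb_congr {u v u₁ v₁ : W} (h : Lb G cl u v) (hu : SameB G cl u u₁)
    (hv : SameB G cl v v₁) : Lb G cl u₁ v₁ := by
  obtain ⟨h1, u', v', hu', hv', hL⟩ := h
  exact ⟨fun hh => h1 (H.sameB_trans hu (H.sameB_trans hh hv.symm)), u', v',
    H.sameB_trans hu.symm hu', H.sameB_trans hv.symm hv', hL⟩

theorem TriHyp.lb_asymm {u v : W} (h : Lb G cl u v) : ¬ Lb G cl v u := by
  intro h'
  obtain ⟨h1, u', v', hu', hv', hL⟩ := id h
  have e1 : Lb G cl v' u' := H.lb_congr h' hv' hu'
  exact (H.lb_lr e1 hL.cl_ne.symm).asymm hL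

theorem TriHyp.no3 {u v w : W} (h1 : Lr G cl u v) (h2 : Lr G cl v w) (h3 : Lr G cl w u)
    (h : ¬ SameB G cl u v) : False := by
  rcases cl_three _ _ _ h1.cl_ne h2.cl_ne h3.cl_ne.symm with ⟨e1, e2⟩ | ⟨e1, e2⟩
  · have e3 := cl_cyc _ _ _ e1 e2
    have a1 : G.Adj u v := by
      rcases h1 with h1 | h1
      · exact h1.2
      · exact absurd h1.1 (cl_not _ _ e1)
    have a2 : G.Adj v w := by
      rcases h2 with h1 | h1
      · exact h1.2
      · exact absurd h1.1 (cl_not _ _ e2)
    have a3 : G.Adj w u := by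
      rcases h3 with h1 | h1
      · exact h1.2
      · exact absurd h1.1 (cl_not _ _ e3)
    exact h (Or.inr ⟨u, v, w, ⟨e1, e2, a1, a2, a3⟩, Or.inl rfl, Or.inr (Or.inl rfl)⟩)
  · have e3 := cl_cyc _ _ _ e1 e2
    have a1 : ¬ G.Adj u v := by
      rcases h1 with h1 | h1
      · exact absurd h1.1 (cl_not _ _ e3)
      · exact h1.2
    have a2 : ¬ G.Adj v w := by
      rcases h2 with h1 | h1
      · exact absurd h1.1 (cl_not _ _ e2)
      · exact h1.2
    have a3 : ¬ G.Adj w u := by
      rcases h3 with h1 | h1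
      · exact absurd h1.1 (cl_not _ _ e1)
      · exact h1.2
    exact H.t1 u w v e1 e2 (fun h => a3 h.symm) (fun h => a2 h.symm) (fun h => a1 h.symm)

/-- **Linear positions** for tripartite structures without independent transversals. -/
theorem TriHyp.exists_pos [Fintype W] : ∃ pos : W → ℕ,
    (∀ u v, cl u ≠ cl v → pos u < pos v → (G.Adj u v ↔ cl v = cl u + 1)) ∧
    (∀ u v, cl u ≠ cl v → pos u = pos v →
      (G.Adj u v ↔ (∃ b c, Tri G cl u b c) ∧ (∃ b c, Tri G cl v b c))) := by
  have hM : ∃ pos : W → ℕ, (∀ u v, Lb G cl u v → pos u < pos v) ∧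
      (∀ u v, (∀ y, Lb G cl y u ↔ Lb G cl y v) → pos u = pos v) := by
    refine mt_pos (W := W) (Cb G cl) (Lb G cl) ?_ ?_ ?_ ?_ ?_ ?_ ?_
    · rintro u v (h | ⟨h1, h2, h3⟩)
      · exact Or.inl h.symm
      · exact Or.inr ⟨h2, h1, h3.symm⟩
    · rintro u v w (h | ⟨h1, h2, h3⟩) (h' | ⟨h1', h2', h3'⟩)
      · exact Or.inl (H.sameB_trans h h')
      · have := h1' u h.symm
        subst this
        exact Or.inr ⟨h1', h2', h3'⟩
      · have := h2 w h'
        subst this
        exact Or.inr ⟨h1, h2, h3⟩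
      · exact Or.inr ⟨h1, h2', h3.trans h3'⟩
    · rintro u v h (h' | ⟨h1, h2, h3⟩)
      · exact h.1 h'
      · obtain ⟨-, u', v', hu, hv, hL⟩ := h
        have e1 := h1 _ hu
        have e2 := h2 _ hv
        subst e1 e2
        exact hL.cl_ne h3
    · intro u v h
      have hs : ¬ SameB G cl u v := fun hh => h (Or.inl hh)
      by_cases hc : cl u = cl v
      · by_cases hu : Sing G cl u
        · have hv : ¬ Sing G cl v := fun hh => h (Or.inr ⟨hu, hh, hc⟩)
          obtain ⟨x, hx, hxk⟩ := not_sing hv (cl u + 1)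
          have hne : cl u ≠ cl x := by rw [hxk]; exact cl_ne _ _ rfl
          rcases Lr.total hne with h' | h'
          · exact Or.inl ⟨hs, u, x, Or.inl rfl, hx, h'⟩
          · exact Or.inr ⟨fun hh => hs hh.symm, x, u, hx, Or.inl rfl, h'⟩
        · obtain ⟨x, hx, hxk⟩ := not_sing hu (cl v + 1)
          have hne : cl v ≠ cl x := by rw [hxk]; exact cl_ne _ _ rfl
          rcases Lr.total hne with h' | h'
          · exact Or.inr ⟨fun hh => hs hh.symm, v, x, Or.inl rfl, hx, h'⟩
          · exact Or.inl ⟨hs, x, v, hx, Or.inl rfl, h'⟩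
      · rcases Lr.total hc with h' | h'
        · exact Or.inl ⟨hs, u, v, Or.inl rfl, Or.inl rfl, h'⟩
        · exact Or.inr ⟨fun hh => hs hh.symm, v, u, Or.inl rfl, Or.inl rfl, h'⟩
    · intro u v h; exact H.lb_asymm h
    · intro u v w h1 h2 h3
      -- find representatives in distinct classes
      have hrep : ∀ u v w, Lb G cl u v → Lb G cl v w → Lb G cl w u → ¬ Sing G cl u → False := by
        intro u v w h1 h2 h3 hu
        obtain ⟨-, v', w', hv', hw', hL⟩ := id h2
        obtain ⟨k, hk1, hk2⟩ := cl_third (cl v') (cl w')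
        obtain ⟨u', hu', hk⟩ := not_sing hu k
        have e1 : Lb G cl u' v' := H.lb_congr h1 hu' hv'
        have e3 : Lb G cl w' u' := H.lb_congr h3 hw' hu'
        exact H.no3 (H.lb_lr e1 (by rw [hk]; exact hk1)) hL
          (H.lb_lr e3 (by rw [hk]; exact hk2.symm)) e1.1
      by_cases hu : Sing G cl u
      · by_cases hv : Sing G cl v
        · by_cases hw : Sing G cl w
          · obtain ⟨n1, u1, v1, hu1, hv1, l1⟩ := h1
            obtain ⟨-, v2, w2, hv2, hw2, l2⟩ := h2
            obtain ⟨-, w3, u3, hw3, hu3, l3⟩ := h3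
            rw [hu _ hu1, hv _ hv1] at l1
            rw [hv _ hv2, hw _ hw2] at l2
            rw [hw _ hw3, hu _ hu3] at l3
            exact H.no3 l1 l2 l3 n1
          · exact hrep w u v h3 h1 h2 hw
        · exact hrep v w u h2 h3 h1 hv
      · exact hrep u v w h1 h2 h3 hu
    · intro u v w x huw hvx h1 h2 h3 h4
      rcases huw with huw | ⟨su, sw, euw⟩
      · exact H.lb_asymm h1 (H.lb_congr h2 (Or.inl rfl) huw.symm)
      · rcases hvx with hvx | ⟨sv, sx, evx⟩
        · exact H.lb_asymm h2 (H.lb_congr h3 (Or.inl rfl) hvx.symm)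
        · obtain ⟨-, u1, v1, hu1, hv1, l1⟩ := h1
          obtain ⟨-, v2, w2, hv2, hw2, l2⟩ := h2
          obtain ⟨-, w3, x3, hw3, hx3, l3⟩ := h3
          obtain ⟨-, x4, u4, hx4, hu4, l4⟩ := h4
          rw [su _ hu1, sv _ hv1] at l1
          rw [sv _ hv2, sw _ hw2] at l2
          rw [sw _ hw3, sx _ hx3] at l3
          rw [sx _ hx4, su _ hu4] at l4
          rcases cl_cases _ _ l1.cl_ne with e | e
          · -- cl v = cl u + 1
            have a1 : G.Adj u v := by
              rcases l1 with h | h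
              · exact h.2
              · exact absurd h.1 (cl_not _ _ e)
            have a2 : ¬ G.Adj v w := by
              rcases l2 with h | h
              · exact absurd h.1 (by rw [← euw]; exact fun hh => cl_not _ _ e hh)
              · exact h.2
            have a3 : G.Adj w x := by
              rcases l3 with h | h
              · exact h.2
              · exact absurd h.1 (by rw [← euw, ← evx]; exact cl_not _ _ e)
            have a4 : ¬ G.Adj x u := by
              rcases l4 with h | h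
              · exact absurd h.1 (by rw [← evx]; exact fun hh => cl_not _ _ e hh)
              · exact h.2
            exact H.t2 u v w x euw evx l1.cl_ne a1 a3 (fun h => a4 h.symm) (fun h => a2 h.symm)
          · have a1 : ¬ G.Adj u v := by
              rcases l1 with h | h
              · exact absurd h.1 (fun hh => cl_not _ _ e hh)
              · exact h.2
            have a2 : G.Adj v w := by
              rcases l2 with h | h
              · exact h.2
              · exact absurd h.1 (by rw [← euw]; exact cl_not _ _ e)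
            have a3 : ¬ G.Adj w x := by
              rcases l3 with h | h
              · exact absurd h.1 (by rw [← euw, ← evx]; exact fun hh => cl_not _ _ e hh)
              · exact h.2
            have a4 : G.Adj x u := by
              rcases l4 with h | h
              · exact h.2
              · exact absurd h.1 (by rw [← evx]; exact cl_not _ _ e)
            exact H.t2 u x w v euw evx.symm l4.cl_ne.symm a4.symm a2.symm a1 a3
  obtain ⟨pos, hpos, heq⟩ := hM
  have same_pos : ∀ u v, SameB G cl u v → pos u = pos v := by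
    intro u v huv
    apply heq
    intro y
    exact ⟨fun h => H.lb_congr h (Or.inl rfl) huv, fun h => H.lb_congr h (Or.inl rfl) huv.symm⟩
  refine ⟨pos, ?_, ?_⟩
  · intro u v hc hlt
    have hL : Lr G cl u v := by
      rcases Lr.total hc with h | h
      · exact h
      · exfalso
        by_cases hs : SameB G cl v u
        · exact absurd (same_pos v u hs) hlt.ne'
        · exact absurd (hpos v u ⟨hs, v, u, Or.inl rfl, Or.inl rfl, h⟩) hlt.le.not_gt
    rcases hL with h | h
    · exact ⟨fun _ => h.1, fun _ => h.2⟩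
    · exact ⟨fun h' => absurd h' h.2, fun h' => absurd h.1 (cl_not _ _ h')⟩
  · intro u v hc he
    have hs : SameB G cl u v := by
      by_contra hs
      rcases Lr.total hc with h | h
      · exact absurd he (hpos u v ⟨hs, u, v, Or.inl rfl, Or.inl rfl, h⟩).ne
      · exact absurd he (hpos v u ⟨fun h => hs h.symm, v, u, Or.inl rfl, Or.inl rfl, h⟩).ne'
    rcases hs with rfl | ⟨a, b, c, ht, hu, hv⟩
    · exact absurd rfl hc
    obtain ⟨a, b, c, ht, ha, hbl⟩ := ht.normal u
    replace hu := (hbl u).1 hu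
    replace hv := (hbl v).1 hv
    clear hbl
    obtain ⟨k1, k2, ab, bc, ca⟩ := id ht
    have k3 : cl a = cl c + 1 := cl_cyc _ _ _ k1 k2
    have nba : cl b ≠ cl a := (cl_ne _ _ k1).symm
    have ncb : cl c ≠ cl b := (cl_ne _ _ k2).symm
    have nca : cl c ≠ cl a := cl_ne _ _ k3
    -- possible forms of `u`
    have hu' : u = a ∨ Ins G cl a b c u := by
      rcases hu with h | h | h | h | h | h
      · exact Or.inl h
      · exact absurd (by rw [ha, h] : cl b = cl a) nba
      · exact absurd (by rw [ha, h] : cl c = cl a) nca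
      · exact Or.inr h
      · exact absurd (h.1.symm.trans ha.symm) nba
      · exact absurd (h.1.symm.trans ha.symm) nca
    have hv' : v = b ∨ v = c ∨ Ins G cl b c a v ∨ Ins G cl c a b v := by
      rcases hv with h | h | h | h | h | h
      · exact absurd (by rw [← ha, h]) hc
      · exact Or.inl h
      · exact Or.inr (Or.inl h)
      · exact absurd (ha.symm.trans h.1.symm) hc
      · exact Or.inr (Or.inr (Or.inl h))
      · exact Or.inr (Or.inr (Or.inr h))
    rcases hu' with h | h
    · subst h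
      have hut : ∃ b c, Tri G cl u b c := ⟨b, c, ht⟩
      rcases hv' with h | h | h | h
      · subst h
        exact ⟨fun _ => ⟨hut, c, u, ht.rot⟩, fun _ => ab⟩
      · subst h
        exact ⟨fun _ => ⟨hut, u, b, ht.rot.rot⟩, fun _ => ca.symm⟩
      · constructor
        · intro h'; exact absurd h'.symm h.2.2
        · rintro ⟨-, b', c', h'⟩; exact (H.ins_not_tri ht.rot h h').elim
      · constructor
        · intro h'; exact absurd h'.symm h.2.1
        · rintro ⟨-, b', c', h'⟩; exact (H.ins_not_tri ht.rot.rot h h').elim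
    · constructor
      · intro h'
        exfalso
        rcases hv' with e | e | e | e
        · subst e; exact h.2.1 h'
        · subst e; exact h.2.2 h'
        · exact H.t2 u v a b ha.symm e.1 (by rw [← ha, e.1]; exact nba.symm) h' ab h.2.1
            (fun hh => e.2.2 hh.symm)
        · exact H.t2 u v a c ha.symm e.1 (by rw [← ha, e.1]; exact nca.symm) h' ca.symm h.2.2
            (fun hh => e.2.1 hh.symm)
      · rintro ⟨⟨b', c', h'⟩, -⟩
        exact (H.ins_not_tri ht h h').elim

end Tri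

end Pool.Agent.V8H30.Wqo
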