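import Pool.Agent.V8H30.WqoFive
import Pool.Agent.V8H30.WqoTour

/-!
Assembly of the pentagon case.
-/

namespace Pool.Agent.V8H30.Wqo

open Set SimpleGraph

universe u

/-- Types: kind (0 = V, 1 = W, 2 = Z), index, activity (0 = none, 1 = right, 2 = left). -/
abbrev T5 := Fin 3 × Fin 5 × Fin 3

/-- Block of a type. -/
def bt (t : T5) : Option (Fin 5) :=
  if t.1 = 0 ∧ t.2.2 = 1 then some (t.2.1 + 3) else
  if t.1 = 0 ∧ t.2.2 = 2 then some (t.2.1 + 2) else
  if t.1 = 1 then some t.2.1 else none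

/-- Class of a type inside its block. -/
def ct (t : T5) : Fin 3 := if t.1 = 1 then 2 else if t.2.2 = 1 then 0 else 1

theorem bt_decode : ∀ (t : T5) (j : Fin 5), bt t = some j →
    (ct t = 0 ∧ t.1 = 0 ∧ t.2.1 = j + 2) ∨ (ct t = 1 ∧ t.1 = 0 ∧ t.2.1 = j + 3) ∨
    (ct t = 2 ∧ t.1 = 1 ∧ t.2.1 = j) := by
  decide

/-- Base rule. -/
def R0 (t t' : T5) : Prop :=
  (t.1 = 0 ∧ t'.1 = 0 ∧ (t'.2.1 = t.2.1 + 1 ∨ t'.2.1 = t.2.1 + 4)) ∨
  (t.1 = 0 ∧ t'.1 = 1 ∧ t'.2.1 = t.2.1) ∨ (t.1 = 1 ∧ t'.1 = 0 ∧ t'.2.1 = t.2.1) ∨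
  (t.1 = 1 ∧ t'.1 = 1 ∧ (t'.2.1 = t.2.1 + 1 ∨ t'.2.1 = t.2.1 + 4))

theorem Good.lay_pentagon {V : Type u} [Fintype V] {G : SimpleGraph V} (hG : Good G)
    (no3 : ∀ a b c, G.Adj a b → G.Adj b c → ¬ G.Adj c a)
    (k : Fin 5 → V) (hk : ∀ i, G.Adj (k i) (k (i + 1))) :
    Lay G Set.univ (Fintype.card T5) := by
  classical
  have hc : ∀ i j : Fin 5, G.Adj (k i) (k j) ↔ (j = i + 1 ∨ j = i + 4) := core_iff no3 hk
  -- the type of a vertex
  have htype : ∀ v, ∃ t : Fin 3 × Fin 5, ∀ j, G.Adj v (k j) ↔ Sf t j := by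
    intro v
    have g1 : ∀ i, ¬ (G.Adj v (k i) ∧ G.Adj v (k (i + 1))) := by
      rintro i ⟨h1, h2⟩
      exact no3 _ _ _ h1 (hk i) h2.symm
    obtain ⟨t, ht⟩ := five_bool (decide (G.Adj v (k 0))) (decide (G.Adj v (k 1)))
      (decide (G.Adj v (k 2))) (decide (G.Adj v (k 3))) (decide (G.Adj v (k 4)))
      (by simpa using g1 0) (by simpa using g1 1) (by simpa using g1 2) (by simpa using g1 3)
      (by simpa using g1 4)
    refine ⟨t, fun j => ?_⟩
    rw [← ht j]
    have hval : ∀ j, ![decide (G.Adj v (k 0)), decide (G.Adj v (k 1)), decide (G.Adj v (k 2)),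
        decide (G.Adj v (k 3)), decide (G.Adj v (k 4))] j = decide (G.Adj v (k j)) := by
      intro j; fin_cases j <;> rfl
    rw [hval]
    simp
  choose t0 ht0 using htype
  have isV : ∀ v, (t0 v).1 = 0 → IsV G k (t0 v).2 v := by
    intro v h j
    rw [ht0 v j]
    simp [Sf, h]
  have isW : ∀ v, (t0 v).1 = 1 → IsW G k (t0 v).2 v := by
    intro v h j
    rw [ht0 v j]
    simp [Sf, h]
  have isZ : ∀ v, (t0 v).1 = 2 → IsZ G k v := by
    intro v h j
    rw [ht0 v j]
    simp [Sf, h]
  let Rc : V → Prop := fun v => (∃ u, IsV G k ((t0 v).2 + 1) u ∧ ¬ G.Adj v u) ∨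
    (∃ w, IsW G k ((t0 v).2 + 3) w ∧ G.Adj v w)
  let Lc : V → Prop := fun v => (∃ u, IsV G k ((t0 v).2 + 4) u ∧ ¬ G.Adj v u) ∨
    (∃ w, IsW G k ((t0 v).2 + 2) w ∧ G.Adj v w)
  have excl : ∀ v, (t0 v).1 = 0 → Rc v → ¬ Lc v := by
    rintro v hv (⟨u, hu, n1⟩ | ⟨w, hw, a1⟩) (⟨u', hu', n2⟩ | ⟨w', hw', a2⟩)
    · exact ex1 hG no3 hc (isV v hv) hu hu' n1 n2
    · exact ex2 hG no3 hc (isV v hv) hu hw' n1 a2
    · exact ex3 hG no3 hc (isV v hv) hu' hw n2 a1
    · exact ex4 hG no3 hc (isV v hv) hw hw' a1 a2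
  let act : V → Fin 3 := fun v => if Rc v then 1 else if Lc v then 2 else 0
  let τ : V → T5 := fun v => ((t0 v).1, (t0 v).2, act v)
  have actR : ∀ v, Rc v → act v = 1 := fun v h => if_pos h
  have actL : ∀ v, (t0 v).1 = 0 → Lc v → act v = 2 := by
    intro v hv h
    have : ¬ Rc v := fun h' => excl v hv h' h
    simp only [act, this, h, if_false, if_true]
  -- rule between different blocks
  have H0 : ∀ u v, u ≠ v → (¬ ∃ j, bt (τ u) = some j ∧ bt (τ v) = some j) →
      (G.Adj u v ↔ R0 (τ u) (τ v)) := by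
    have kinds : ∀ i : Fin 3, i = 0 ∨ i = 1 ∨ i = 2 := by decide
    -- V-V
    have HVV1 : ∀ u v, (t0 u).1 = 0 → (t0 v).1 = 0 → (t0 v).2 = (t0 u).2 + 1 →
        (¬ ∃ j, bt (τ u) = some j ∧ bt (τ v) = some j) → G.Adj u v := by
      intro u v hu hv h hn
      by_contra hna
      have h1 : Rc u := Or.inl ⟨v, h ▸ isV v hv, hna⟩
      have h2 : Lc v := by
        refine Or.inl ⟨u, ?_, fun hh => hna hh.symm⟩
        rw [h, show (t0 u).2 + 1 + 4 = (t0 u).2 from by
          generalize (t0 u).2 = i; revert i; decide]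
        exact isV u hu
      apply hn
      refine ⟨(t0 u).2 + 3, ?_, ?_⟩
      · simp [bt, τ, hu, actR u h1]
      · simp only [bt, τ, hv, actL v hv h2, h]
        generalize (t0 u).2 = i
        revert i; decide
    have HVV : ∀ u v, (t0 u).1 = 0 → (t0 v).1 = 0 →
        (¬ ∃ j, bt (τ u) = some j ∧ bt (τ v) = some j) →
        (G.Adj u v ↔ ((t0 v).2 = (t0 u).2 + 1 ∨ (t0 v).2 = (t0 u).2 + 4)) := by
      intro u v hu hv hn
      have a0 : ∀ i : Fin 5, ¬ (i = i + 1 ∨ i = i + 4) := by decide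
      have a3 : ∀ i : Fin 5, i + 3 + 2 = i := by decide
      have a4 : ∀ i : Fin 5, i + 4 + 1 = i := by decide
      rcases five_cover (t0 u).2 (t0 v).2 with h | h | h | h | h
      · refine ⟨fun hh => absurd hh (vv0 no3 (isV u hu) (h ▸ isV v hv)), fun hh => ?_⟩
        rw [h] at hh
        exact absurd hh (a0 _)
      · exact ⟨fun _ => Or.inl h, fun _ => HVV1 u v hu hv h hn⟩
      · refine ⟨fun hh => absurd hh (vv2 no3 (isV u hu) (h ▸ isV v hv)), fun hh => ?_⟩
        rw [h] at hh
        exact absurd hh (by simp)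
      · refine ⟨fun hh => absurd hh.symm (vv2 no3 (isV v hv) ?_), fun hh => ?_⟩
        · rw [h, a3]; exact isV u hu
        · rw [h] at hh
          exact absurd hh (by simp)
      · refine ⟨fun _ => Or.inr h, fun _ => (HVV1 v u hv hu (by rw [h, a4]) ?_).symm⟩
        rintro ⟨j, h1, h2⟩
        exact hn ⟨j, h2, h1⟩
    have HVW : ∀ u v, (t0 u).1 = 0 → (t0 v).1 = 1 →
        (¬ ∃ j, bt (τ u) = some j ∧ bt (τ v) = some j) →
        (G.Adj u v ↔ (t0 v).2 = (t0 u).2) := by
      intro u v hu hv hn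
      rcases five_cover (t0 u).2 (t0 v).2 with h | h | h | h | h
      · exact ⟨fun _ => h, fun _ => vw0 hG hc (isV u hu) (h ▸ isW v hv)⟩
      · refine ⟨fun hh => absurd hh (vw1 no3 (isV u hu) (h ▸ isW v hv)), fun hh => ?_⟩
        rw [h] at hh; exact absurd hh (by simp)
      · constructor
        · intro hh
          exfalso
          have h1 : Lc u := Or.inr ⟨v, h ▸ isW v hv, hh⟩
          exact hn ⟨(t0 u).2 + 2, by simp [bt, τ, hu, actL u hu h1], by simp [bt, τ, hv, h]⟩
        · intro hh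
          rw [h] at hh; exact absurd hh (by simp)
      · constructor
        · intro hh
          exfalso
          have h1 : Rc u := Or.inr ⟨v, h ▸ isW v hv, hh⟩
          exact hn ⟨(t0 u).2 + 3, by simp [bt, τ, hu, actR u h1], by simp [bt, τ, hv, h]⟩
        · intro hh
          rw [h] at hh; exact absurd hh (by simp)
      · refine ⟨fun hh => absurd hh (vw4 no3 (isV u hu) (h ▸ isW v hv)), fun hh => ?_⟩
        rw [h] at hh; exact absurd hh (by simp)
    have HWW : ∀ u v, (t0 u).1 = 1 → (t0 v).1 = 1 →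
        (G.Adj u v ↔ ((t0 v).2 = (t0 u).2 + 1 ∨ (t0 v).2 = (t0 u).2 + 4)) := by
      intro u v hu hv
      have a0 : ∀ i : Fin 5, ¬ (i = i + 1 ∨ i = i + 4) := by decide
      have a3 : ∀ i : Fin 5, i + 3 + 2 = i := by decide
      have a4 : ∀ i : Fin 5, i + 4 + 1 = i := by decide
      rcases five_cover (t0 u).2 (t0 v).2 with h | h | h | h | h
      · refine ⟨fun hh => absurd hh (ww0 no3 (isW u hu) (h ▸ isW v hv)), fun hh => ?_⟩
        rw [h] at hh
        exact absurd hh (a0 _)
      · exact ⟨fun _ => Or.inl h, fun _ => ww1 hG hc (isW u hu) (h ▸ isW v hv)⟩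
      · refine ⟨fun hh => absurd hh (ww2 hG hc (isW u hu) (h ▸ isW v hv)), fun hh => ?_⟩
        rw [h] at hh
        exact absurd hh (by simp)
      · refine ⟨fun hh => absurd hh.symm (ww2 hG hc (isW v hv) ?_), fun hh => ?_⟩
        · rw [h, a3]; exact isW u hu
        · rw [h] at hh
          exact absurd hh (by simp)
      · refine ⟨fun _ => Or.inr h, fun _ => (ww1 hG hc (isW v hv) ?_).symm⟩
        rw [h, a4]; exact isW u hu
    intro u v huv hn
    rcases kinds (t0 u).1 with hu | hu | hu <;> rcases kinds (t0 v).1 with hv | hv | hv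
    · rw [HVV u v hu hv hn]; simp [R0, τ, hu, hv]
    · rw [HVW u v hu hv hn]; simp [R0, τ, hu, hv]
    · have h' : ¬ G.Adj u v := fun h => zv hG hc (isZ v hv) (isV u hu) h.symm
      simp [R0, τ, hu, hv, h']
    · have := HVW v u hv hu (fun ⟨j, h1, h2⟩ => hn ⟨j, h2, h1⟩)
      rw [G.adj_comm, this]; simp [R0, τ, hu, hv, eq_comm]
    · rw [HWW u v hu hv]; simp [R0, τ, hu, hv]
    · have h' : ¬ G.Adj u v := fun h => zw hG hc (isZ v hv) (isW u hu) h.symm
      simp [R0, τ, hu, hv, h']
    · have := zv hG hc (isZ u hu) (isV v hv)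
      simp [R0, τ, hu, hv, this]
    · have := zw hG hc (isZ u hu) (isW v hv)
      simp [R0, τ, hu, hv, this]
    · have := zz hG hc (isZ u hu) (isZ v hv)
      simp [R0, τ, hu, hv, this]
  -- inside a block
  have hpos : ∀ j : Fin 5, ∃ pos : {v : V // bt (τ v) = some j} → ℕ,
      ∀ u v, ct (τ u.1) ≠ ct (τ v.1) →
        (pos u < pos v → (G.Adj u.1 v.1 ↔ ct (τ v.1) = ct (τ u.1) + 1)) ∧
        (pos u = pos v → ¬ G.Adj u.1 v.1) := by
    intro j
    let W := {v : V // bt (τ v) = some j}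
    let cl : W → Fin 3 := fun v => ct (τ v.1)
    have D : ∀ v : W, (cl v = 0 ∧ IsV G k (j + 2) v.1) ∨ (cl v = 1 ∧ IsV G k (j + 3) v.1) ∨
        (cl v = 2 ∧ IsW G k j v.1) := by
      intro v
      rcases bt_decode _ _ v.2 with ⟨h1, h2, h3⟩ | ⟨h1, h2, h3⟩ | ⟨h1, h2, h3⟩
      · have e : (t0 v.1).2 = j + 2 := h3
        exact Or.inl ⟨h1, e ▸ isV v.1 h2⟩
      · have e : (t0 v.1).2 = j + 3 := h3
        exact Or.inr (Or.inl ⟨h1, e ▸ isV v.1 h2⟩)
      · have e : (t0 v.1).2 = j := h3
        have hw := isW v.1 h2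
        rw [e] at hw
        exact Or.inr (Or.inr ⟨h1, hw⟩)
    have D0 : ∀ v : W, cl v = 0 → IsV G k (j + 2) v.1 := by
      intro v h
      rcases D v with ⟨h1, h2⟩ | ⟨h1, h2⟩ | ⟨h1, h2⟩
      · exact h2
      · rw [h] at h1; exact absurd h1 (by decide)
      · rw [h] at h1; exact absurd h1 (by decide)
    have D1 : ∀ v : W, cl v = 1 → IsV G k (j + 3) v.1 := by
      intro v h
      rcases D v with ⟨h1, h2⟩ | ⟨h1, h2⟩ | ⟨h1, h2⟩
      · rw [h] at h1; exact absurd h1 (by decide)
      · exact h2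
      · rw [h] at h1; exact absurd h1 (by decide)
    have D2 : ∀ v : W, cl v = 2 → IsW G k j v.1 := by
      intro v h
      rcases D v with ⟨h1, h2⟩ | ⟨h1, h2⟩ | ⟨h1, h2⟩
      · rw [h] at h1; exact absurd h1 (by decide)
      · rw [h] at h1; exact absurd h1 (by decide)
      · exact h2
    have kinds : ∀ i : Fin 3, i = 0 ∨ i = 1 ∨ i = 2 := by decide
    have H : TriHyp (G.comap (Subtype.val : W → V)) cl := by
      refine ⟨?_, ?_, ?_⟩
      · intro a b c k1 k2 ab bc ca
        rcases kinds (cl a) with h | h | h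
        · have hb : cl b = 1 := by rw [k1, h]; decide
          have hc' : cl c = 2 := by rw [k2, hb]; decide
          exact trans5 hG hc (D0 a h) (D1 b hb) (D2 c hc') ab bc ca
        · have hb : cl b = 2 := by rw [k1, h]; decide
          have hc' : cl c = 0 := by rw [k2, hb]; decide
          exact trans5 hG hc (D0 c hc') (D1 a h) (D2 b hb) ca ab bc
        · have hb : cl b = 0 := by rw [k1, h]; decide
          have hc' : cl c = 1 := by rw [k2, hb]; decide
          exact trans5 hG hc (D0 b hb) (D1 c hc') (D2 a h) bc ca ab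
      · -- 2P2-free pairs: a common non-neighbour on the pentagon
        have same : ∀ u v : W, cl u = cl v → ¬ G.Adj u.1 v.1 := by
          intro u v h
          rcases kinds (cl u) with e | e | e
          · exact vv0 no3 (D0 u e) (D0 v (h ▸ e))
          · exact vv0 no3 (D1 u e) (D1 v (h ▸ e))
          · exact ww0 no3 (D2 u e) (D2 v (h ▸ e))
        have common : ∀ i i' : Fin 3, i ≠ i' → ∃ x, ∀ u : W, (cl u = i ∨ cl u = i') →
            ¬ G.Adj (k x) u.1 := by
          intro i i' hii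
          have hcases : ∀ i i' : Fin 3, i ≠ i' →
              ((i ≠ 2 ∧ i' ≠ 2) ∨ (i ≠ 1 ∧ i' ≠ 1) ∨ (i ≠ 0 ∧ i' ≠ 0)) := by decide
          rcases hcases i i' hii with ⟨h1, h2⟩ | ⟨h1, h2⟩ | ⟨h1, h2⟩
          · refine ⟨j, fun u hu => ?_⟩
            rcases kinds (cl u) with e | e | e
            · have := D0 u e; first | (rw [this]; done) | (rw [SimpleGraph.adj_comm, this]; done) | (rw [this]; simp [add_assoc]; done) | (rw [SimpleGraph.adj_comm, this]; simp [add_assoc]; done)
            · have := D1 u e; first | (rw [this]; done) | (rw [SimpleGraph.adj_comm, this]; done) | (rw [this]; simp [add_assoc]; done) | (rw [SimpleGraph.adj_comm, this]; simp [add_assoc]; done)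
            · rcases hu with hu | hu
              · exact absurd (hu.symm.trans e) h1
              · exact absurd (hu.symm.trans e) h2
          · refine ⟨j + 2, fun u hu => ?_⟩
            rcases kinds (cl u) with e | e | e
            · have := D0 u e; first | (rw [this]; done) | (rw [SimpleGraph.adj_comm, this]; done) | (rw [this]; simp [add_assoc]; done) | (rw [SimpleGraph.adj_comm, this]; simp [add_assoc]; done)
            · rcases hu with hu | hu
              · exact absurd (hu.symm.trans e) h1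
              · exact absurd (hu.symm.trans e) h2
            · have := D2 u e; first | (rw [this]; done) | (rw [SimpleGraph.adj_comm, this]; done) | (rw [this]; simp [add_assoc]; done) | (rw [SimpleGraph.adj_comm, this]; simp [add_assoc]; done)
          · refine ⟨j + 1, fun u hu => ?_⟩
            rcases kinds (cl u) with e | e | e
            · rcases hu with hu | hu
              · exact absurd (hu.symm.trans e) h1
              · exact absurd (hu.symm.trans e) h2
            · have := D1 u e; first | (rw [this]; done) | (rw [SimpleGraph.adj_comm, this]; done) | (rw [this]; simp [add_assoc]; done) | (rw [SimpleGraph.adj_comm, this]; simp [add_assoc]; done)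
            · have := D2 u e; first | (rw [this]; done) | (rw [SimpleGraph.adj_comm, this]; done) | (rw [this]; simp [add_assoc]; done) | (rw [SimpleGraph.adj_comm, this]; simp [add_assoc]; done)
        intro u v u' v' h1 h2 h3 a1 a2 n1 n2
        obtain ⟨x, hx⟩ := common _ _ h3
        exact hG.p (k x) u.1 v.1 u'.1 v'.1 a1 a2 (same _ _ h1) n1 (fun h => n2 h.symm)
          (same _ _ h2) (hx u (Or.inl rfl)) (hx v (Or.inr rfl)) (hx u' (Or.inl h1.symm))
          (hx v' (Or.inr h2.symm))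
      · intro a b c b' c' ht _
        exact (no3 _ _ _ ht.2.2.1 ht.2.2.2.1 ht.2.2.2.2).elim
    obtain ⟨pos, hp1, hp2⟩ := H.exists_pos
    refine ⟨pos, fun u v huv => ⟨fun h => hp1 u v huv h, fun h hadj => ?_⟩⟩
    obtain ⟨⟨b, c, ht⟩, -⟩ := (hp2 u v huv h).1 hadj
    exact no3 _ _ _ ht.2.2.1 ht.2.2.2.1 ht.2.2.2.2
  choose posj hposj using hpos
  have sameT : ∀ u v j, bt (τ u) = some j → bt (τ v) = some j → ct (τ u) = ct (τ v) →
      ¬ G.Adj u v := by
    intro u v j hu hv h
    rcases bt_decode _ _ hu with ⟨h1, h2, h3⟩ | ⟨h1, h2, h3⟩ | ⟨h1, h2, h3⟩ <;>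
      rcases bt_decode _ _ hv with ⟨g1, g2, g3⟩ | ⟨g1, g2, g3⟩ | ⟨g1, g2, g3⟩
    · exact vv0 no3 (isV u h2) (by
        have e : (t0 v).2 = (t0 u).2 := g3.trans h3.symm
        exact e ▸ isV v g2)
    · rw [h1, g1] at h; exact absurd h (by decide)
    · rw [h1, g1] at h; exact absurd h (by decide)
    · rw [h1, g1] at h; exact absurd h (by decide)
    · exact vv0 no3 (isV u h2) (by
        have e : (t0 v).2 = (t0 u).2 := g3.trans h3.symm
        exact e ▸ isV v g2)
    · rw [h1, g1] at h; exact absurd h (by decide)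
    · rw [h1, g1] at h; exact absurd h (by decide)
    · rw [h1, g1] at h; exact absurd h (by decide)
    · exact ww0 no3 (isW u h2) (by
        have e : (t0 v).2 = (t0 u).2 := g3.trans h3.symm
        exact e ▸ isW v g2)
  let p : V → ℕ := fun v => match bt (τ v) with
    | none => 0
    | some j => j.val + 1
  let q : V → ℕ := fun v => if h : ∃ j, bt (τ v) = some j then
    posj h.choose ⟨v, h.choose_spec⟩ else 0
  have hq : ∀ v j (h : bt (τ v) = some j), q v = posj j ⟨v, h⟩ := by
    intro v j h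
    have hex : ∃ j, bt (τ v) = some j := ⟨j, h⟩
    have e : hex.choose = j := Option.some.inj (hex.choose_spec.symm.trans h)
    simp only [q, dif_pos hex]
    have key : ∀ (j' : Fin 5) (h' : bt (τ v) = some j'), j' = j →
        posj j' ⟨v, h'⟩ = posj j ⟨v, h⟩ := by
      rintro j' h' rfl
      rfl
    exact key _ _ e
  have hpn : ∀ v, bt (τ v) = none → p v = 0 := by
    intro v h; simp only [p, h]
  have hps : ∀ v j, bt (τ v) = some j → p v = j.val + 1 := by
    intro v j h; simp only [p, h]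
  have hpp : ∀ u v, (∃ j, bt (τ u) = some j ∧ bt (τ v) = some j) → p u = p v := by
    rintro u v ⟨j, h1, h2⟩
    rw [hps u j h1, hps v j h2]
  have hpp' : ∀ u v j, p u = p v → bt (τ u) = some j → bt (τ v) = some j := by
    intro u v j h hu
    rw [hps u j hu] at h
    cases hv : bt (τ v) with
    | none => rw [hpn v hv] at h; omega
    | some j' =>
      rw [hps v j' hv] at h
      have : j = j' := Fin.ext (by omega)
      rw [this]
  let sm : T5 → T5 → Prop := fun t t' => ∃ j, bt t = some j ∧ bt t' = some j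
  refine Lay.of_type (T := T5) τ p q R0
    (fun t t' => (sm t t' ∧ ct t' = ct t + 1) ∨ (¬ sm t t' ∧ R0 t t'))
    (fun t t' => ¬ sm t t' ∧ R0 t t') ?_ le_rfl
  intro u _ v _ huv
  refine ⟨fun h => ?_, fun h1 h2 => ?_, fun h1 h2 => ?_⟩
  · exact H0 u v huv (fun hh => absurd (hpp u v hh) h.ne)
  · by_cases hs : sm (τ u) (τ v)
    · obtain ⟨j, hu, hv⟩ := hs
      have hs' : sm (τ u) (τ v) := ⟨j, hu, hv⟩
      simp only [hs', true_and, not_true_eq_false, false_and, or_false]
      by_cases hct : ct (τ u) = ct (τ v)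
      · refine ⟨fun h => absurd h (sameT u v j hu hv hct), fun h => ?_⟩
        rw [hct] at h
        exact absurd rfl (cl_ne _ _ h)
      · have := (hposj j ⟨u, hu⟩ ⟨v, hv⟩ hct).1
        rw [← hq u j hu, ← hq v j hv] at this
        exact this h2
    · simp only [hs, false_and, not_false_eq_true, true_and, false_or]
      exact H0 u v huv hs
  · by_cases hs : sm (τ u) (τ v)
    · obtain ⟨j, hu, hv⟩ := hs
      have hs' : sm (τ u) (τ v) := ⟨j, hu, hv⟩
      simp only [hs', not_true_eq_false, false_and, iff_false]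
      by_cases hct : ct (τ u) = ct (τ v)
      · exact sameT u v j hu hv hct
      · have := (hposj j ⟨u, hu⟩ ⟨v, hv⟩ hct).2
        rw [← hq u j hu, ← hq v j hv] at this
        exact this h2
    · simp only [hs, not_false_eq_true, true_and]
      exact H0 u v huv hs

end Pool.Agent.V8H30.Wqo
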