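import Pool.Agent.V8H30.WqoTriangle
import Pool.Agent.V8H30.WqoFive2

/-!
All (diamond, P₁+2P₂)-free graphs are layered with a bounded number of types.
-/

namespace Pool.Agent.V8H30.Wqo

open Set SimpleGraph

universe u

/-- Uniform bound for the number of types. -/
def nAll : ℕ := max nTri (max (Fintype.card T5) (max 7 2))

theorem Good.lay_all {V : Type u} [Fintype V] {G : SimpleGraph V} (hG : Good G) :
    Lay G Set.univ nAll := by
  by_cases h3 : ∃ a b c, G.Adj a b ∧ G.Adj b c ∧ G.Adj a c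
  · exact (hG.lay_triangle h3).mono (le_max_left _ _)
  have no3 : ∀ a b c, G.Adj a b → G.Adj b c → ¬ G.Adj c a :=
    fun a b c ab bc ca => h3 ⟨a, b, c, ab, bc, ca.symm⟩
  by_cases h5 : ∃ a b c d e, G.Adj a b ∧ G.Adj b c ∧ G.Adj c d ∧ G.Adj d e ∧ G.Adj e a
  · obtain ⟨a, b, c, d, e, ab, bc, cd, de, ea⟩ := h5
    refine (hG.lay_pentagon no3 ![a, b, c, d, e] ?_).mono
      ((le_max_left _ _).trans (le_max_right _ _))
    intro i
    fin_cases i
    · exact ab
    · exact bc
    · exact cd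
    · exact de
    · exact ea
  have no5 : ∀ a b c d e, G.Adj a b → G.Adj b c → G.Adj c d → G.Adj d e → ¬ G.Adj e a :=
    fun a b c d e ab bc cd de ea => h5 ⟨a, b, c, d, e, ab, bc, cd, de, ea⟩
  by_cases h7 : ∃ a b c d e g h, G.Adj a b ∧ G.Adj b c ∧ G.Adj c d ∧ G.Adj d e ∧ G.Adj e g ∧
      G.Adj g h ∧ G.Adj h a
  · obtain ⟨a, b, c, d, e, g, h, ab, bc, cd, de, eg, gh, ha⟩ := h7
    refine (hG.lay_seven no3 no5 ![a, b, c, d, e, g, h] ?_).mono
      (((le_max_left _ _).trans (le_max_right _ _)).trans (le_max_right _ _))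
    intro i
    fin_cases i
    · exact ab
    · exact bc
    · exact cd
    · exact de
    · exact eg
    · exact gh
    · exact ha
  obtain ⟨f, hf⟩ := hG.bipartite no3 no5
    (fun a b c d e g h ab bc cd de eg gh ha => h7 ⟨a, b, c, d, e, g, h, ab, bc, cd, de, eg, gh, ha⟩)
  exact (lay_bip hG f hf).mono
    (((le_max_right _ _).trans (le_max_right _ _)).trans (le_max_right _ _))

end Pool.Agent.V8H30.Wqo
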