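import Pool.Agent.V8H30.WqoClique

/-!
Bipartite (P₁+2P₂)-free graphs are layered.
-/

namespace Pool.Agent.V8H30.Wqo

open Set SimpleGraph

universe u

section Bip

variable {V : Type u} [Fintype V] {G : SimpleGraph V} (hG : Good G) (f : V → Bool)
  (hf : ∀ u v, G.Adj u v → f u ≠ f v)

open Classical in
/-- Non-neighbours on the other side. -/
noncomputable def Dn (G : SimpleGraph V) (f : V → Bool) (u : V) : Finset V :=
  Finset.univ.filter (fun w => f w ≠ f u ∧ ¬ G.Adj u w)

omit [Fintype V] in
theorem Bool.eq_of_ne_ne {a b c : Bool} (h1 : a ≠ c) (h2 : b ≠ c) : a = b := by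
  cases a <;> cases b <;> cases c <;> simp_all

theorem mem_Dn {u w : V} : w ∈ Dn G f u ↔ f w ≠ f u ∧ ¬ G.Adj u w := by
  simp [Dn]

theorem mem_Dn_symm {u w : V} : w ∈ Dn G f u ↔ u ∈ Dn G f w := by
  rw [mem_Dn, mem_Dn, G.adj_comm, ne_comm]

include hG hf

theorem Dn_laminar {u v : V} (huv : f u = f v) (h : (∃ b, b ∈ Dn G f u ∧ b ∈ Dn G f v)) :
    Dn G f u ⊆ Dn G f v ∨ Dn G f v ⊆ Dn G f u := by
  by_contra hcon
  push Not at hcon
  obtain ⟨h1, h2⟩ := hcon
  obtain ⟨b, hb1, hb2⟩ := Finset.not_subset.1 h1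
  obtain ⟨c, hc1, hc2⟩ := Finset.not_subset.1 h2
  obtain ⟨d, hd1, hd2⟩ := h
  rw [mem_Dn] at hb1 hb2 hc1 hc2 hd1 hd2
  have hvb : G.Adj v b := by
    by_contra h; exact hb2 ⟨by rw [← huv]; exact hb1.1, h⟩
  have huc : G.Adj u c := by
    by_contra h; exact hc2 ⟨by rw [huv]; exact hc1.1, h⟩
  have same : ∀ x y, f x = f y → ¬ G.Adj x y := fun x y hxy h => hf _ _ h hxy
  have e1 : f d = f b := Bool.eq_of_ne_ne hd1.1 hb1.1
  have e2 : f d = f c := Bool.eq_of_ne_ne hd2.1 hc1.1
  have e3 : f b = f c := e1.symm.trans e2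
  exact hG.p d v b u c hvb huc (same _ _ huv.symm) hc1.2 (fun h => hb1.2 h.symm) (same _ _ e3)
    (fun h => hd2.2 h.symm) (same _ _ e1) (fun h => hd1.2 h.symm) (same _ _ e2)

theorem Dn_trans {u v w : V} (huv : f u = f v) (hvw : f v = f w)
    (h1 : (∃ b, b ∈ Dn G f u ∧ b ∈ Dn G f v)) (h2 : (∃ b, b ∈ Dn G f v ∧ b ∈ Dn G f w)) :
    (∃ b, b ∈ Dn G f u ∧ b ∈ Dn G f w) := by
  have l1 := Dn_laminar hG f hf huv h1
  have l2 := Dn_laminar hG f hf hvw h2
  obtain ⟨b, hb⟩ := h1
  obtain ⟨c, hc⟩ := h2
  rcases l1 with l1 | l1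
  · rcases l2 with l2 | l2
    · exact ⟨b, hb.1, l2 hb.2⟩
    · -- both inside the middle one
      have hbc : f b = f c := Bool.eq_of_ne_ne (mem_Dn f |>.1 hb.2).1 (mem_Dn f |>.1 hc.1).1
      have hb1 : u ∈ Dn G f b := (mem_Dn_symm f).1 hb.1
      have hb2 : v ∈ Dn G f b := (mem_Dn_symm f).1 hb.2
      have hc1 : v ∈ Dn G f c := (mem_Dn_symm f).1 hc.1
      have hc2 : w ∈ Dn G f c := (mem_Dn_symm f).1 hc.2
      rcases Dn_laminar hG f hf hbc ⟨v, hb2, hc1⟩ with l | l
      · exact ⟨c, (mem_Dn_symm f).2 (l hb1), hc.2⟩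
      · exact ⟨b, hb.1, (mem_Dn_symm f).2 (l hc2)⟩
  · exact ⟨c, l1 hc.1, hc.2⟩

/-- Bipartite (P₁+2P₂)-free graphs are layered with two types. -/
theorem lay_bip : Lay G Set.univ 2 := by
  classical
  let M : V → Finset V := fun u => if f u = true then
      Finset.univ.filter (fun b => ∃ a', f a' = true ∧ (∃ b, b ∈ Dn G f a' ∧ b ∈ Dn G f u) ∧
        b ∈ Dn G f a')
    else Finset.univ.filter (fun b => ∃ a', f a' = true ∧ u ∈ Dn G f a' ∧ b ∈ Dn G f a')
  let p : V → ℕ := fun u => (Fintype.equivFin (Finset V) (M u)).val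
  have hp : ∀ u v, p u = p v ↔ M u = M v := by
    intro u v
    constructor
    · intro h
      exact (Fintype.equivFin (Finset V)).injective (Fin.ext h)
    · intro h
      simp only [p, h]
  let q : V → ℕ := fun u => if f u = true then
      (Finset.univ.filter (fun a' => f a' = true ∧ Dn G f u ⊂ Dn G f a')).card
    else (Dn G f u).card
  have hMa : ∀ a b, f a = true → (b ∈ M a ↔ ∃ a', f a' = true ∧
      (∃ b, b ∈ Dn G f a' ∧ b ∈ Dn G f a) ∧ b ∈ Dn G f a') := by
    intro a b ha
    simp [M, ha]
  have hMb : ∀ b b', f b = false → (b' ∈ M b ↔ ∃ a', f a' = true ∧ b ∈ Dn G f a' ∧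
      b' ∈ Dn G f a') := by
    intro a b ha
    simp [M, ha]
  have hD : ∀ a b, f a = true → f b = false → (¬ G.Adj a b ↔ (p a = p b ∧ q a < q b)) := by
    intro a b ha hb
    have hqa : q a = (Finset.univ.filter (fun a' => f a' = true ∧ Dn G f a ⊂ Dn G f a')).card := by
      simp [q, ha]
    have hqb : q b = (Dn G f b).card := by simp [q, hb]
    constructor
    · intro hab
      have hba : b ∈ Dn G f a := (mem_Dn f).2 ⟨by rw [ha, hb]; simp, hab⟩
      constructor
      · rw [hp]
        ext x
        rw [hMa a x ha, hMb b x hb]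
        constructor
        · rintro ⟨a', ha', hn, hx⟩
          rcases Dn_laminar hG f hf (ha'.trans ha.symm) hn with l | l
          · exact ⟨a, ha, hba, l hx⟩
          · exact ⟨a', ha', l hba, hx⟩
        · rintro ⟨a', ha', hn, hx⟩
          exact ⟨a', ha', ⟨b, hn, hba⟩, hx⟩
      · rw [hqa, hqb]
        apply Finset.card_lt_card
        rw [Finset.ssubset_iff_of_subset]
        · refine ⟨a, (mem_Dn_symm f).1 hba, ?_⟩
          simp
        · intro x hx
          simp only [Finset.mem_filter, Finset.mem_univ, true_and] at hx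
          exact (mem_Dn_symm f).1 (hx.2.1 hba)
    · rintro ⟨h1, h2⟩ hab
      rw [hp] at h1
      rw [hqa, hqb] at h2
      refine absurd h2 (not_lt.2 (Finset.card_le_card ?_))
      intro x hx
      have hxf : f x = true := by
        have := ((mem_Dn f).1 hx).1
        rw [hb] at this
        simpa using this
      have hbx : b ∈ Dn G f x := (mem_Dn_symm f).1 hx
      have hbM : b ∈ M a := by
        rw [h1, hMb b b hb]
        exact ⟨x, hxf, hbx, hbx⟩
      rw [hMa a b ha] at hbM
      obtain ⟨a', ha', hn, hb'⟩ := hbM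
      have hn2 : (∃ b, b ∈ Dn G f x ∧ b ∈ Dn G f a) :=
        Dn_trans hG f hf (hxf.trans ha'.symm) (ha'.trans ha.symm) ⟨b, hbx, hb'⟩ hn
      have hbna : b ∉ Dn G f a := fun h => ((mem_Dn f).1 h).2 hab
      simp only [Finset.mem_filter, Finset.mem_univ, true_and]
      refine ⟨hxf, ?_⟩
      rcases Dn_laminar hG f hf (hxf.trans ha.symm) hn2 with l | l
      · exact absurd (l hbx) hbna
      · exact (Finset.ssubset_iff_of_subset l).2 ⟨b, hbx, hbna⟩
  have same : ∀ x y, f x = f y → ¬ G.Adj x y := fun x y hxy h => hf _ _ h hxy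
  refine Lay.of_type (T := Bool) f p q (fun t t' => t ≠ t') (fun t t' => t = false ∧ t' = true)
    (fun t t' => t ≠ t') ?_ (by simp)
  intro u _ v _ huv
  rcases hu : f u with _ | _ <;> rcases hv : f v with _ | _
  · have := same u v (by rw [hu, hv])
    simp [this]
  · have h1 := hD v u hv hu
    rw [G.adj_comm v u] at h1
    refine ⟨fun h => ?_, fun h h' => ?_, fun h h' => ?_⟩
    · simp only [ne_eq, reduceCtorEq, not_false_eq_true, iff_true]
      by_contra hcon
      have := (h1.1 hcon).1
      omega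
    · simp only [and_self, iff_true]
      by_contra hcon
      have := (h1.1 hcon).2
      omega
    · simp only [ne_eq, reduceCtorEq, not_false_eq_true, iff_true]
      by_contra hcon
      have := (h1.1 hcon).2
      omega
  · have h1 := hD u v hu hv
    refine ⟨fun h => ?_, fun h h' => ?_, fun h h' => ?_⟩
    · simp only [ne_eq, reduceCtorEq, not_false_eq_true, iff_true]
      by_contra hcon
      have := (h1.1 hcon).1
      omega
    · simp only [reduceCtorEq, false_and, iff_false]
      exact h1.2 ⟨h, h'⟩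
    · simp only [ne_eq, reduceCtorEq, not_false_eq_true, iff_true]
      by_contra hcon
      have := (h1.1 hcon).2
      omega
  · have := same u v (by rw [hu, hv])
    simp [this]

end Bip

section Coloring

variable {V : Type u} {G : SimpleGraph V} (hG : Good G)
include hG

/-- Without closed walks of length 3, 5 and 7 a (P₁+2P₂)-free graph is bipartite. -/
theorem Good.bipartite
    (no3 : ∀ a b c, G.Adj a b → G.Adj b c → ¬ G.Adj c a)
    (no5 : ∀ a b c d e, G.Adj a b → G.Adj b c → G.Adj c d → G.Adj d e → ¬ G.Adj e a)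
    (no7 : ∀ a b c d e g h, G.Adj a b → G.Adj b c → G.Adj c d → G.Adj d e → G.Adj e g →
      G.Adj g h → ¬ G.Adj h a) :
    ∃ f : V → Bool, ∀ u v, G.Adj u v → f u ≠ f v := by
  classical
  by_cases hE : ∃ x y, G.Adj x y
  · obtain ⟨x, y, xy⟩ := hE
    let hx : V → Prop := fun z => ∃ u, G.Adj x u ∧ G.Adj u z
    let hy : V → Prop := fun z => ∃ u, G.Adj y u ∧ G.Adj u z
    have nxy : ∀ z, hx z → ¬ hy z := by
      rintro z ⟨u, xu, uz⟩ ⟨w, yw, wz⟩
      exact no5 x u z w y xu uz wz.symm yw.symm xy.symm
    have nxx : ∀ p q, G.Adj p q → hx p → ¬ hx q := by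
      rintro p q pq ⟨u, xu, up⟩ ⟨u', xu', uq⟩
      exact no5 x u p q u' xu up pq uq.symm xu'.symm
    have nyy : ∀ p q, G.Adj p q → hy p → ¬ hy q := by
      rintro p q pq ⟨u, xu, up⟩ ⟨u', xu', uq⟩
      exact no5 y u p q u' xu up pq uq.symm xu'.symm
    have n7 : ∀ p q p', G.Adj p q → G.Adj q p' → hx p → ¬ hy p' := by
      rintro p q p' pq qp ⟨u, xu, up⟩ ⟨w, yw, wp⟩
      exact no7 x u p q p' w y xu up pq qp wp.symm yw.symm xy.symm
    -- colouring of the outer part
    have hZ : ∃ g : V → Bool, (∀ u v, ¬ G.Adj x u → ¬ G.Adj y u → ¬ G.Adj x v → ¬ G.Adj y v →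
        G.Adj u v → g u ≠ g v) ∧
        (∀ u, ¬ G.Adj x u → ¬ G.Adj y u → hx u → g u = false) ∧
        (∀ u, ¬ G.Adj x u → ¬ G.Adj y u → hy u → g u = true) := by
      by_cases hP : ∃ p q, ¬ G.Adj x p ∧ ¬ G.Adj y p ∧ ¬ G.Adj x q ∧ ¬ G.Adj y q ∧ G.Adj p q
      · obtain ⟨p₀, q₀, xp, yp, xq, yq, pq⟩ := hP
        have cot : ∀ u v w, ¬ G.Adj x u → ¬ G.Adj y u → ¬ G.Adj x v → ¬ G.Adj y v →
            ¬ G.Adj x w → ¬ G.Adj y w → ¬ G.Adj u v → ¬ G.Adj v w → ¬ G.Adj u w := by
          intro u v w h1 h2 h3 h4 h5 h6 h7 h8 h9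
          exact hG.p v u w x y h9 xy (fun h => h1 h.symm) (fun h => h2 h.symm)
            (fun h => h5 h.symm) (fun h => h6 h.symm) (fun h => h7 h.symm) h8
            (fun h => h3 h.symm) (fun h => h4 h.symm)
        -- every outer vertex is adjacent to exactly one of p₀, q₀
        have one : ∀ z, ¬ G.Adj x z → ¬ G.Adj y z → (G.Adj z p₀ ↔ ¬ G.Adj z q₀) := by
          intro z h1 h2
          constructor
          · intro h3 h4
            exact no3 z p₀ q₀ h3 pq h4.symm
          · intro h3
            by_contra h4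
            exact cot p₀ z q₀ xp yp h1 h2 xq yq (fun h => h4 h.symm) h3 pq
        let cc : Bool := if (∃ p, ¬ G.Adj x p ∧ ¬ G.Adj y p ∧ G.Adj p q₀ ∧ hx p) ∨
          (∃ q, ¬ G.Adj x q ∧ ¬ G.Adj y q ∧ G.Adj q p₀ ∧ hy q) then false else true
        refine ⟨fun z => if G.Adj z q₀ then cc else !cc, ?_, ?_, ?_⟩
        · intro u v h1 h2 h3 h4 huv
          by_cases hu : G.Adj u q₀
          · by_cases hv : G.Adj v q₀
            · exact absurd huv.symm (fun h => no3 u q₀ v hu hv.symm h)
            · simp [hu, hv]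
          · by_cases hv : G.Adj v q₀
            · simp [hu, hv]
            · exfalso
              have hu' := (one u h1 h2).2 hu
              have hv' := (one v h3 h4).2 hv
              exact no3 u p₀ v hu' hv'.symm huv.symm
        · intro u h1 h2 hxu
          by_cases hu : G.Adj u q₀
          · have : cc = false := if_pos (Or.inl ⟨u, h1, h2, hu, hxu⟩)
            simp [hu, this]
          · have hu' := (one u h1 h2).2 hu
            have : cc = true := by
              apply if_neg
              rintro (⟨p, a1, a2, a3, a4⟩ | ⟨q, a1, a2, a3, a4⟩)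
              · have hup : G.Adj p u := by
                  by_contra hcon
                  have : ¬ G.Adj p p₀ := fun h => ((one p a1 a2).1 h) a3
                  exact cot u p p₀ h1 h2 a1 a2 xp yp (fun h => hcon h.symm) this hu'
                exact nxx p u hup a4 hxu
              · exact n7 u p₀ q hu' a3.symm hxu a4
            simp [hu, this]
        · intro u h1 h2 hyu
          by_cases hu : G.Adj u q₀
          · have : cc = true := by
              apply if_neg
              rintro (⟨p, a1, a2, a3, a4⟩ | ⟨q, a1, a2, a3, a4⟩)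
              · exact n7 p q₀ u a3 hu.symm a4 hyu
              · have hup : G.Adj q u := by
                  by_contra hcon
                  have : ¬ G.Adj q q₀ := (one q a1 a2).1 a3
                  exact cot u q q₀ h1 h2 a1 a2 xq yq (fun h => hcon h.symm) this hu
                exact nyy q u hup a4 hyu
            simp [hu, this]
          · have hu' := (one u h1 h2).2 hu
            have : cc = false := if_pos (Or.inr ⟨u, h1, h2, hu', hyu⟩)
            simp [hu, this]
      · refine ⟨fun z => if hy z then true else false, ?_, ?_, ?_⟩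
        · intro u v h1 h2 h3 h4 huv
          exact absurd ⟨u, v, h1, h2, h3, h4, huv⟩ hP
        · intro u h1 h2 hxu
          have := nxy u hxu
          simp [this]
        · intro u h1 h2 hyu
          simp [hyu]
    obtain ⟨g, hg1, hg2, hg3⟩ := hZ
    refine ⟨fun z => if G.Adj x z then true else if G.Adj y z then false else g z, ?_⟩
    have main : ∀ u v, G.Adj u v → G.Adj x u →
        (if G.Adj x v then true else if G.Adj y v then false else g v) = false := by
      intro u v huv hxu
      have hxv : ¬ G.Adj x v := fun h => no3 x u v hxu huv h.symm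
      by_cases hyv : G.Adj y v
      · simp [hxv, hyv]
      · simp only [hxv, hyv, if_false]
        exact hg2 v hxv hyv ⟨u, hxu, huv⟩
    have main2 : ∀ u v, G.Adj u v → ¬ G.Adj x u → G.Adj y u →
        (if G.Adj x v then true else if G.Adj y v then false else g v) = true := by
      intro u v huv hxu hyu
      have hyv : ¬ G.Adj y v := fun h => no3 y u v hyu huv h.symm
      by_cases hxv : G.Adj x v
      · simp [hxv]
      · simp only [hxv, hyv, if_false]
        exact hg3 v hxv hyv ⟨u, hyu, huv⟩
    intro u v huv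
    change (if G.Adj x u then true else if G.Adj y u then false else g u) ≠
      (if G.Adj x v then true else if G.Adj y v then false else g v)
    by_cases hxu : G.Adj x u
    · have := main u v huv hxu
      simp only [hxu, if_true]
      rw [this]; simp
    · by_cases hxv : G.Adj x v
      · have := main v u huv.symm hxv
        simp only [hxv, if_true]
        rw [this]; simp
      · by_cases hyu : G.Adj y u
        · have := main2 u v huv hxu hyu
          rw [this]; simp [hxu, hyu]
        · by_cases hyv : G.Adj y v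
          · have := main2 v u huv.symm hxv hyv
            rw [this]; simp [hxv, hyv]
          · simp only [hxu, hyu, hxv, hyv, if_false]
            exact hg1 u v hxu hyu hxv hyv huv
  · refine ⟨fun _ => true, fun u v huv => absurd ⟨u, v, huv⟩ hE⟩

end Coloring

end Pool.Agent.V8H30.Wqo
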