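import Pool.Agent.V8H30.WqoLayered
import Pool.Agent.V8H30.WqoTour

/-!
(diamond, P₁+2P₂)-free graphs containing a triangle are layered with a bounded number of types.
-/

namespace Pool.Agent.V8H30.Wqo

open Set SimpleGraph

universe u

section Tools

variable {V : Type u} {G : SimpleGraph V} {s : Set V} {N M : ℕ}

theorem Lay.of_type {T : Type} [Fintype T] (τ : V → T) (p q : V → ℕ) (R₁ R₂ S : T → T → Prop)
    (h : ∀ u ∈ s, ∀ v ∈ s, u ≠ v →
      (p u < p v → (G.Adj u v ↔ R₁ (τ u) (τ v))) ∧
      (p u = p v → q u < q v → (G.Adj u v ↔ R₂ (τ u) (τ v))) ∧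
      (p u = p v → q u = q v → (G.Adj u v ↔ S (τ u) (τ v))))
    (hN : Fintype.card T ≤ N) : Lay G s N := by
  classical
  have e : T ↪ Fin N := Classical.choice (Function.Embedding.nonempty_of_card_le (by simpa using hN))
  have key : ∀ (R : T → T → Prop) (a b : T),
      (∃ a' b', e a' = e a ∧ e b' = e b ∧ R a' b') ↔ R a b := by
    intro R a b
    constructor
    · rintro ⟨a', b', h1, h2, h3⟩
      rw [e.injective h1, e.injective h2] at h3
      exact h3
    · intro h
      exact ⟨a, b, rfl, rfl, h⟩
  refine ⟨fun v => e (τ v), p, q, fun i j => ∃ a' b', e a' = i ∧ e b' = j ∧ R₁ a' b',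
    fun i j => ∃ a' b', e a' = i ∧ e b' = j ∧ R₂ a' b',
    fun i j => ∃ a' b', e a' = i ∧ e b' = j ∧ S a' b', ?_⟩
  intro u hu v hv huv
  obtain ⟨h1, h2, h3⟩ := h u hu v hv huv
  refine ⟨fun hh => (h1 hh).trans (key _ _ _).symm, fun hh hh' => (h2 hh hh').trans (key _ _ _).symm,
    fun hh hh' => (h3 hh hh').trans (key _ _ _).symm⟩

theorem Lay.mono (h : Lay G s N) (hNM : N ≤ M) : Lay G s M := by
  obtain ⟨τ, p, q, R₁, R₂, S, h⟩ := h
  exact Lay.of_type τ p q R₁ R₂ S h (by simpa using hNM)

theorem Lay.subset {s' : Set V} (h : Lay G s N) (hs : s' ⊆ s) : Lay G s' N := by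
  obtain ⟨τ, p, q, R₁, R₂, S, h⟩ := h
  exact ⟨τ, p, q, R₁, R₂, S, fun u hu v hv => h u (hs hu) v (hs hv)⟩

theorem Lay.add_vertex (h : Lay G s N) (x : V) : Lay G (insert x s) (2 * N + 1) := by
  classical
  obtain ⟨τ, p, q, R₁, R₂, S, h⟩ := h
  let τ' : V → Option (Fin N × Bool) := fun v => if v = x then none else
    some (τ v, decide (G.Adj x v))
  let R : (Fin N → Fin N → Prop) → Option (Fin N × Bool) → Option (Fin N × Bool) → Prop :=
    fun R t t' => match t, t' with
      | none, none => False
      | none, some b => b.2 = true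
      | some a, none => a.2 = true
      | some a, some b => R a.1 b.1
  refine Lay.of_type (T := Option (Fin N × Bool)) τ' (fun v => if v = x then 0 else p v + 1)
    q (R R₁) (R R₂) (R S) ?_ ?_
  · intro u hu v hv huv
    by_cases hux : u = x
    · subst hux
      have hvx : v ≠ u := Ne.symm huv
      simp [τ', R, hvx]
    · by_cases hvx : v = x
      · subst hvx
        simp [τ', R, hux, G.adj_comm]
      · have hu' : u ∈ s := by rcases hu with h | h; exact absurd h hux; exact h
        have hv' : v ∈ s := by rcases hv with h | h; exact absurd h hvx; exact h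
        simpa [τ', R, hux, hvx] using h u hu' v hv' huv
  · simp [Fintype.card_option, Fintype.card_prod]
    omega

/-- Bound for adding `m` vertices. -/
def gN (N : ℕ) : ℕ → ℕ
  | 0 => N
  | m + 1 => 2 * gN N m + 1

theorem le_gN (N : ℕ) : ∀ m, N ≤ gN N m
  | 0 => le_rfl
  | m + 1 => by have := le_gN N m; simp only [gN]; omega

theorem Lay.add_finset (h : Lay G s N) : ∀ (m : ℕ) (F : Finset V), F.card ≤ m →
    Lay G (s ∪ (F : Set V)) (gN N m) := by
  classical
  intro m
  induction m with
  | zero =>
    intro F hF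
    have : F = ∅ := Finset.card_eq_zero.1 (Nat.le_zero.1 hF)
    subst this
    simpa [gN] using h
  | succ m ih =>
    intro F hF
    rcases F.eq_empty_or_nonempty with rfl | ⟨x, hx⟩
    · simpa using h.mono (le_gN N (m + 1))
    · have h1 := (ih (F.erase x) (by rw [Finset.card_erase_of_mem hx]; omega)).add_vertex x
      refine h1.subset ?_
      intro y hy
      by_cases hyx : y = x
      · exact Or.inl hyx
      · rcases hy with hy | hy
        · exact Or.inr (Or.inl hy)
        · exact Or.inr (Or.inr (by simpa [hyx] using hy))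

end Tools

/-- Working form of (diamond, P₁+2P₂)-freeness. -/
structure Good {V : Type u} (G : SimpleGraph V) : Prop where
  d : ∀ a b c d, G.Adj a b → G.Adj a c → G.Adj b c → G.Adj a d → G.Adj b d → c ≠ d → G.Adj c d
  p : ∀ p a b c d, G.Adj a b → G.Adj c d → ¬ G.Adj a c → ¬ G.Adj a d → ¬ G.Adj b c →
    ¬ G.Adj b d → ¬ G.Adj p a → ¬ G.Adj p b → ¬ G.Adj p c → ¬ G.Adj p d → False

section Struct

variable {V : Type u} {G : SimpleGraph V} (hG : Good G)
include hG

/-- On a set where non-adjacency is transitive adjacency is determined by a two-valued type. -/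
theorem Good.homog (s : Set V)
    (hco : ∀ u ∈ s, ∀ v ∈ s, ∀ w ∈ s, ¬ G.Adj u v → ¬ G.Adj v w → ¬ G.Adj u w) :
    ∃ (σ : V → Bool) (Q : Bool → Bool → Prop), ∀ u ∈ s, ∀ v ∈ s, u ≠ v →
      (G.Adj u v ↔ Q (σ u) (σ v)) := by
  classical
  by_cases hcl : ∃ u ∈ s, ∃ v ∈ s, u ≠ v ∧ ¬ G.Adj u v
  · obtain ⟨u₀, hu₀, v₀, hv₀, hne, hna⟩ := hcl
    refine ⟨fun v => decide (G.Adj v u₀), fun a b => a ≠ b, ?_⟩
    intro u hu v hv huv
    by_cases h1 : G.Adj u u₀
    · by_cases h2 : G.Adj v u₀
      · simp only [h1, h2, decide_true, ne_eq, not_true_eq_false, iff_false]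
        intro h3
        have h4 : G.Adj u v₀ := by
          by_contra h4
          exact hco u hu v₀ hv₀ u₀ hu₀ h4 (fun h => hna h.symm) h1
        have h5 : G.Adj v v₀ := by
          by_contra h4
          exact hco v hv v₀ hv₀ u₀ hu₀ h4 (fun h => hna h.symm) h2
        exact hna (hG.d u v u₀ v₀ h3 h1 h2 h4 h5 hne)
      · simp only [h1, h2, decide_true, decide_false, ne_eq, reduceCtorEq, not_false_eq_true,
          iff_true]
        by_contra h3
        exact hco u hu v hv u₀ hu₀ h3 h2 h1
    · by_cases h2 : G.Adj v u₀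
      · simp only [h1, h2, decide_true, decide_false, ne_eq, reduceCtorEq, not_false_eq_true,
          iff_true]
        by_contra h3
        exact hco v hv u hu u₀ hu₀ (fun h => h3 h.symm) h1 h2
      · simp only [h1, h2, decide_false, ne_eq, not_true_eq_false, iff_false]
        exact hco u hu u₀ hu₀ v hv h1 (fun h => h2 h.symm)
  · refine ⟨fun _ => true, fun _ _ => True, ?_⟩
    intro u hu v hv huv
    simp only [iff_true]
    by_contra h
    exact hcl ⟨u, hu, v, hv, huv, h⟩

end Struct

/-- A maximal clique `k` together with the class function of the outer vertices. -/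
structure Frame {V : Type u} (G : SimpleGraph V) (n : ℕ) (k : Fin n → V)
    (c : V → Option (Fin n)) : Prop where
  inj : Function.Injective k
  cl : ∀ i j, i ≠ j → G.Adj (k i) (k j)
  hc : ∀ v, v ∉ Set.range k → ∀ i, (G.Adj v (k i) ↔ c v = some i)

section Frames

variable {V : Type u} {G : SimpleGraph V} (hG : Good G)
include hG

theorem Good.exists_frame (n : ℕ) (k : Fin n → V) (hk : Function.Injective k)
    (hcl : ∀ i j, i ≠ j → G.Adj (k i) (k j))
    (hmax : ∀ v, v ∉ Set.range k → ∃ i, ¬ G.Adj v (k i)) : ∃ c, Frame G n k c := by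
  classical
  refine ⟨fun v => if h : ∃ i, G.Adj v (k i) then some h.choose else none, hk, hcl, ?_⟩
  intro v hv i
  have huniq : ∀ i j, G.Adj v (k i) → G.Adj v (k j) → i = j := by
    intro i j hi hj
    by_contra hij
    obtain ⟨l, hl⟩ := hmax v hv
    have hil : i ≠ l := by rintro rfl; exact hl hi
    have hjl : j ≠ l := by rintro rfl; exact hl hj
    exact hl (hG.d (k i) (k j) v (k l) (hcl i j hij) hi.symm hj.symm (hcl i l hil) (hcl j l hjl)
      (fun h => hv ⟨l, h.symm⟩))
  by_cases h : ∃ i, G.Adj v (k i)
  · simp only [h, dite_true, Option.some.injEq]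
    constructor
    · intro hi; exact huniq _ _ h.choose_spec hi
    · intro hi; rw [← hi]; exact h.choose_spec
  · simp only [h, dite_false, reduceCtorEq, iff_false]
    intro hi; exact h ⟨i, hi⟩

variable {n : ℕ} {k : Fin n → V} {c : V → Option (Fin n)} (F : Frame G n k c)
include F

theorem Good.cotrans (y z : Fin n) (hyz : y ≠ z) (u v w : V) (hu : u ∉ Set.range k)
    (hv : v ∉ Set.range k) (hw : w ∉ Set.range k)
    (hu1 : c u ≠ some y) (hu2 : c u ≠ some z) (hv1 : c v ≠ some y) (hv2 : c v ≠ some z)
    (hw1 : c w ≠ some y) (hw2 : c w ≠ some z) (h1 : ¬ G.Adj u v) (h2 : ¬ G.Adj v w) :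
    ¬ G.Adj u w := by
  intro h3
  exact hG.p v u w (k y) (k z) h3 (F.cl y z hyz)
    (fun h => hu1 ((F.hc u hu y).1 h)) (fun h => hu2 ((F.hc u hu z).1 h))
    (fun h => hw1 ((F.hc w hw y).1 h)) (fun h => hw2 ((F.hc w hw z).1 h))
    (fun h => h1 h.symm) h2
    (fun h => hv1 ((F.hc v hv y).1 h)) (fun h => hv2 ((F.hc v hv z).1 h))

/-- Cliques with at least five vertices. -/
theorem Good.lay_five (hn : 5 ≤ n) : Lay G Set.univ 3 := by
  classical
  obtain ⟨σ, Q, hQ⟩ := hG.homog (Set.range k)ᶜ (by
    intro u hu v hv w hw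
    have hcard : (({c u, c v, c w} : Finset (Option (Fin n)))).card ≤ 3 := Finset.card_le_three
    let J : Finset (Fin n) := Finset.univ.filter (fun i => some i ≠ c u ∧ some i ≠ c v ∧ some i ≠ c w)
    have hJ : 1 < J.card := by
      have h1 : (Finset.univ : Finset (Fin n)).card ≤
          J.card + (({c u, c v, c w} : Finset (Option (Fin n)))).card := by
        have hsub : (Finset.univ : Finset (Fin n)) ⊆ J ∪
            (Finset.univ.filter (fun i => some i ∈ ({c u, c v, c w} : Finset (Option (Fin n))))) := by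
          intro i _
          simp only [J, Finset.mem_union, Finset.mem_filter, Finset.mem_univ, true_and,
            Finset.mem_insert, Finset.mem_singleton]
          tauto
        refine (Finset.card_le_card hsub).trans ((Finset.card_union_le _ _).trans ?_)
        refine Nat.add_le_add_left ?_ _
        refine Finset.card_le_card_of_injOn some ?_ ?_
        · intro i hi
          simpa using hi
        · intro a _ b _ hab
          exact Option.some.inj hab
      simp only [Finset.card_univ, Fintype.card_fin] at h1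
      omega
    obtain ⟨y, hy, z, hz, hyz⟩ := Finset.one_lt_card.1 hJ
    simp only [J, Finset.mem_filter, Finset.mem_univ, true_and] at hy hz
    exact hG.cotrans F y z hyz u v w hu hv hw (Ne.symm hy.1) (Ne.symm hz.1) (Ne.symm hy.2.1)
      (Ne.symm hz.2.1) (Ne.symm hy.2.2) (Ne.symm hz.2.2))
  let τ : V → Option Bool := fun v => if v ∈ Set.range k then none else some (σ v)
  let p : V → ℕ := fun v => if h : v ∈ Set.range k then h.choose.val + 1 else
    match c v with
    | none => 0
    | some i => i.val + 1
  have hpk : ∀ i, p (k i) = i.val + 1 := by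
    intro i
    have h : k i ∈ Set.range k := ⟨i, rfl⟩
    simp only [p, h, dite_true]
    have := F.inj h.choose_spec
    rw [this]
  have hpn : ∀ v, v ∉ Set.range k → c v = none → p v = 0 := by
    intro v hv hc
    simp only [p, hv, dite_false, hc]
  have hps : ∀ v i, v ∉ Set.range k → c v = some i → p v = i.val + 1 := by
    intro v i hv hc
    simp only [p, hv, dite_false, hc]
  have hτk : ∀ i, τ (k i) = none := by
    intro i
    have h : k i ∈ Set.range k := ⟨i, rfl⟩
    simp only [τ, h, if_true]
  have hτn : ∀ v, v ∉ Set.range k → τ v = some (σ v) := by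
    intro v hv
    simp only [τ, hv, if_false]
  let R₁ : Option Bool → Option Bool → Prop := fun t t' => match t, t' with
    | none, none => True
    | some a, some b => Q a b
    | _, _ => False
  let S : Option Bool → Option Bool → Prop := fun t t' => match t, t' with
    | some a, some b => Q a b
    | _, _ => True
  have hkv : ∀ i v, v ∉ Set.range k → (G.Adj v (k i) ↔ p v = p (k i)) := by
    intro i v hv
    rw [F.hc v hv i, hpk]
    cases hcv : c v with
    | none => simp [hpn v hv hcv]
    | some j =>
      rw [hps v j hv hcv]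
      simp [Fin.ext_iff]
  refine Lay.of_type (T := Option Bool) τ p (fun _ => 0) R₁ R₁ S ?_ (by simp)
  intro u _ v _ huv
  refine ⟨?_, fun _ h => absurd h (by simp), fun h _ => ?_⟩
  · intro hlt
    by_cases hu : u ∈ Set.range k
    · obtain ⟨i, rfl⟩ := hu
      by_cases hv : v ∈ Set.range k
      · obtain ⟨j, rfl⟩ := hv
        rw [hτk, hτk]
        simp only [R₁, iff_true]
        exact F.cl i j (fun h => huv (by rw [h]))
      · rw [hτk, hτn v hv, G.adj_comm, hkv i v hv]
        simp only [R₁, iff_false]
        exact fun h => absurd h hlt.ne'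
    · by_cases hv : v ∈ Set.range k
      · obtain ⟨j, rfl⟩ := hv
        rw [hτk, hτn u hu, hkv j u hu]
        simp only [R₁, iff_false]
        exact hlt.ne
      · rw [hτn u hu, hτn v hv]
        exact hQ u hu v hv huv
  · by_cases hu : u ∈ Set.range k
    · obtain ⟨i, rfl⟩ := hu
      by_cases hv : v ∈ Set.range k
      · obtain ⟨j, rfl⟩ := hv
        rw [hτk, hτk]
        simp only [S, iff_true]
        exact F.cl i j (fun h => huv (by rw [h]))
      · rw [hτk, hτn v hv, G.adj_comm, hkv i v hv]
        simp only [S, iff_true]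
        exact h.symm
    · by_cases hv : v ∈ Set.range k
      · obtain ⟨j, rfl⟩ := hv
        rw [hτk, hτn u hu, hkv j u hu]
        simp only [S, iff_true]
        exact h
      · rw [hτn u hu, hτn v hv]
        exact hQ u hu v hv huv

end Frames

end Pool.Agent.V8H30.Wqo
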