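import Pool.Agent.V8H30.WqoClique

/-!
Maximum cliques with four or three vertices; assembly for graphs containing a triangle.
-/

namespace Pool.Agent.V8H30.Wqo

open Set SimpleGraph

universe u

section Tripartite

variable {W : Type u} [Fintype W] {G : SimpleGraph W} {cl : W → Fin 3}

/-- Common form of the two cases of the tripartite lemma. -/
theorem tripartite
    (t2 : ∀ u v u' v', cl u = cl u' → cl v = cl v' → cl u ≠ cl v → G.Adj u v → G.Adj u' v' →
      ¬ G.Adj u v' → ¬ G.Adj u' v → False)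
    (t3 : ∀ a b c b' c', Tri G cl a b c → Tri G cl a b' c' → b = b' ∧ c = c')
    (h2 : ∀ u u' v w, cl u = cl u' → cl u ≠ cl v → cl v ≠ cl w → cl u ≠ cl w →
      ¬ G.Adj u w → ¬ G.Adj u' w → ¬ G.Adj v w → G.Adj u v → G.Adj u' v) :
    ∃ (pos : W → ℕ) (fl : W → Bool) (R S : Fin 3 × Bool → Fin 3 × Bool → Prop),
      (∀ u v, cl u ≠ cl v → pos u < pos v → (G.Adj u v ↔ R (cl u, fl u) (cl v, fl v))) ∧
      (∀ u v, cl u ≠ cl v → pos u = pos v → (G.Adj u v ↔ S (cl u, fl u) (cl v, fl v))) := by
  classical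
  by_cases h1 : ∃ a b c, cl b = cl a + 1 ∧ cl c = cl b + 1 ∧ ¬ G.Adj a b ∧ ¬ G.Adj b c ∧
      ¬ G.Adj c a
  · obtain ⟨a, b, c, k1, k2, ab, bc, ca⟩ := h1
    have k3 : cl a = cl c + 1 := cl_cyc _ _ _ k1 k2
    have hr : ∃ r : Fin 3 → W, (∀ i, cl (r i) = i) ∧ ∀ i j, ¬ G.Adj (r i) (r j) := by
      refine ⟨fun i => if i = cl a then a else if i = cl b then b else c, ?_, ?_⟩
      · intro i
        have : ∀ i x y z : Fin 3, y = x + 1 → z = y + 1 → i ≠ x → i ≠ y → z = i := by
          intro i x y z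
          fin_cases i <;> fin_cases x <;> fin_cases y <;> fin_cases z <;> simp
        by_cases e1 : i = cl a
        · simp [e1]
        · by_cases e2 : i = cl b
          · simp only [e2, if_true]
            rw [if_neg (by rw [← e2]; exact e1)]
          · simp only [e1, e2, if_false]
            exact this _ _ _ _ k1 k2 e1 e2
      · intro i j
        dsimp only
        have ba : ¬ G.Adj b a := fun h => ab h.symm
        have cb : ¬ G.Adj c b := fun h => bc h.symm
        have ac : ¬ G.Adj a c := fun h => ca h.symm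
        split_ifs <;> first | assumption | exact G.irrefl
    obtain ⟨r, hr1, hr2⟩ := hr
    have hstep : ∀ v i j, i ≠ cl v → j ≠ cl v → i ≠ j → G.Adj v (r i) → G.Adj v (r j) := by
      intro v i j hi hj hij h
      by_contra h'
      have := h2 v (r (cl v)) (r i) (r j) (hr1 _).symm (by rw [hr1]; exact hi.symm)
        (by rw [hr1, hr1]; exact hij) (by rw [hr1]; exact hj.symm) h' (hr2 _ _) (hr2 _ _) h
      exact hr2 _ _ this
    have hfl : ∀ v i, i ≠ cl v → (G.Adj v (r i) ↔ G.Adj v (r (cl v + 1))) := by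
      intro v i hi
      by_cases h : i = cl v + 1
      · rw [h]
      · exact ⟨hstep v _ _ hi (by exact fun hh => cl_ne _ _ rfl hh.symm) h,
          hstep v _ _ (by exact fun hh => cl_ne _ _ rfl hh.symm) hi (Ne.symm h)⟩
    let Rr : Fin 3 × Bool → Fin 3 × Bool → Prop := fun t t' => t.2 = true ∨ t'.2 = true
    have hmain : ∀ u v, cl u ≠ cl v → (G.Adj u v ↔ G.Adj u (r (cl u + 1)) ∨
        G.Adj v (r (cl v + 1))) := by
      intro u v huv
      obtain ⟨k, hk1, hk2⟩ := cl_third (cl u) (cl v)
      constructor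
      · intro h
        by_contra hcon
        push Not at hcon
        obtain ⟨hu, hv⟩ := hcon
        have := h2 u (r (cl u)) v (r k) (hr1 _).symm huv (by rw [hr1]; exact hk2.symm)
          (by rw [hr1]; exact hk1.symm) (fun hh => hu ((hfl u k hk1).1 hh)) (hr2 _ _)
          (fun hh => hv ((hfl v k hk2).1 hh)) h
        exact hv ((hfl v _ huv).1 this.symm)
      · intro h
        by_contra hna
        have main : ∀ u v, cl u ≠ cl v → k ≠ cl u → k ≠ cl v → ¬ G.Adj u v →
            G.Adj u (r (cl u + 1)) → False := by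
          intro u v huv hk1 hk2 hna hu
          by_cases hv : G.Adj v (r (cl v + 1))
          · exact t2 u (r (cl v)) (r (cl u)) v (hr1 _).symm (hr1 _) (by rw [hr1]; exact huv)
              ((hfl u _ huv.symm).2 hu) ((hfl v _ huv).2 hv).symm hna (hr2 _ _)
          · have := h2 u (r (cl u)) (r k) v (hr1 _).symm (by rw [hr1]; exact hk1.symm)
              (by rw [hr1]; exact hk2) huv hna
              (fun hh => hv ((hfl v _ huv).1 hh.symm))
              (fun hh => hv ((hfl v k hk2).1 hh.symm)) ((hfl u k hk1).2 hu)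
            exact hr2 _ _ this
        rcases h with h | h
        · exact main u v huv hk1 hk2 hna h
        · exact main v u huv.symm hk2 hk1 (fun hh => hna hh.symm) h
    refine ⟨fun _ => 0, fun v => decide (G.Adj v (r (cl v + 1))), Rr, Rr, ?_, ?_⟩
    · intro u v _ h; exact absurd h (lt_irrefl _)
    · intro u v huv _
      simp only [Rr, decide_eq_true_eq]
      exact hmain u v huv
  · have H : TriHyp G cl := by
      refine ⟨?_, t2, t3⟩
      intro a b c k1 k2 ab bc ca
      exact h1 ⟨a, b, c, k1, k2, ab, bc, ca⟩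
    obtain ⟨pos, hp1, hp2⟩ := H.exists_pos
    refine ⟨pos, fun v => decide (∃ b c, Tri G cl v b c), fun t t' => t'.1 = t.1 + 1,
      fun t t' => t.2 = true ∧ t'.2 = true, ?_, ?_⟩
    · intro u v huv h; exact hp1 u v huv h
    · intro u v huv h
      simp only [decide_eq_true_eq]
      exact hp2 u v huv h

end Tripartite

section Frames

variable {V : Type u} {G : SimpleGraph V} (hG : Good G)

theorem two4 : ∀ i j : Fin 4, ∃ y z : Fin 4, y ≠ z ∧ y ≠ i ∧ y ≠ j ∧ z ≠ i ∧ z ≠ j := by
  decide

theorem two3 : ∀ i : Fin 3, ∃ y z : Fin 3, y ≠ z ∧ y ≠ i ∧ z ≠ i := by decide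

include hG

/-- Maximal cliques with exactly four vertices. -/
theorem Good.lay_four {k : Fin 4 → V} {c : V → Option (Fin 4)} (F : Frame G 4 k c) :
    Lay G Set.univ (gN (Fintype.card (Option (Fin 4) × (Fin 4 → Fin 4 → Bool))) 4) := by
  classical
  have h0 : ∀ i j, ∃ (σ : V → Bool) (Q : Bool → Bool → Prop),
      ∀ u ∈ {v | v ∉ Set.range k ∧ (c v = none ∨ c v = some i ∨ c v = some j)},
      ∀ v ∈ {v | v ∉ Set.range k ∧ (c v = none ∨ c v = some i ∨ c v = some j)}, u ≠ v →
      (G.Adj u v ↔ Q (σ u) (σ v)) := by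
    intro i j
    apply hG.homog
    rintro u ⟨hu, hu'⟩ v ⟨hv, hv'⟩ w ⟨hw, hw'⟩
    obtain ⟨y, z, hyz, y1, y2, z1, z2⟩ := two4 i j
    have key : ∀ v x, (c v = none ∨ c v = some i ∨ c v = some j) → x ≠ i → x ≠ j →
        c v ≠ some x := by
      rintro v x (h | h | h) h1 h2 <;> rw [h] <;> simp [Ne.symm h1, Ne.symm h2]
    exact hG.cotrans F y z hyz u v w hu hv hw (key u y hu' y1 y2) (key u z hu' z1 z2)
      (key v y hv' y1 y2) (key v z hv' z1 z2) (key w y hw' y1 y2) (key w z hw' z1 z2)
  choose σ Q hQ using h0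
  have hs : Lay G (Set.range k)ᶜ (Fintype.card (Option (Fin 4) × (Fin 4 → Fin 4 → Bool))) := by
    let S : (Option (Fin 4) × (Fin 4 → Fin 4 → Bool)) → (Option (Fin 4) × (Fin 4 → Fin 4 → Bool)) →
      Prop := fun t t' => Q (t.1.getD 0) (t'.1.getD 0) (t.2 (t.1.getD 0) (t'.1.getD 0))
        (t'.2 (t.1.getD 0) (t'.1.getD 0))
    refine Lay.of_type (fun v => (c v, fun i j => σ i j v)) (fun _ => 0) (fun _ => 0) S S S ?_
      le_rfl
    intro u hu v hv huv
    have key : G.Adj u v ↔ S (c u, fun i j => σ i j u) (c v, fun i j => σ i j v) := by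
      apply hQ _ _ u ?_ v ?_ huv
      · refine ⟨hu, ?_⟩
        cases h : c u <;> simp
      · refine ⟨hv, ?_⟩
        cases h : c v <;> simp
    exact ⟨fun _ => key, fun _ _ => key, fun _ _ => key⟩
  have := hs.add_finset 4 (Finset.univ.image k) (by
    refine Finset.card_image_le.trans ?_
    simp)
  refine this.subset ?_
  intro v _
  by_cases hv : v ∈ Set.range k
  · right; simpa using hv
  · exact Or.inl hv

/-- Maximum cliques with exactly three vertices. -/
theorem Good.lay_three [Fintype V] {k : Fin 3 → V} {c : V → Option (Fin 3)} (F : Frame G 3 k c)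
    (hK4 : ∀ a b c d, G.Adj a b → G.Adj a c → G.Adj a d → G.Adj b c → G.Adj b d → G.Adj c d →
      False) :
    Lay G Set.univ (gN (Fintype.card (Option (Fin 3) × Bool × (Fin 3 → Bool))) 9) := by
  classical
  have hco : ∀ i, ∀ u ∈ {v | v ∉ Set.range k ∧ (c v = none ∨ c v = some i)},
      ∀ v ∈ {v | v ∉ Set.range k ∧ (c v = none ∨ c v = some i)},
      ∀ w ∈ {v | v ∉ Set.range k ∧ (c v = none ∨ c v = some i)},
      ¬ G.Adj u v → ¬ G.Adj v w → ¬ G.Adj u w := by
    rintro i u ⟨hu, hu'⟩ v ⟨hv, hv'⟩ w ⟨hw, hw'⟩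
    obtain ⟨y, z, hyz, y1, z1⟩ := two3 i
    have key : ∀ v x, (c v = none ∨ c v = some i) → x ≠ i → c v ≠ some x := by
      rintro v x (h | h) h1 <;> rw [h] <;> simp [Ne.symm h1]
    exact hG.cotrans F y z hyz u v w hu hv hw (key u y hu' y1) (key u z hu' z1)
      (key v y hv' y1) (key v z hv' z1) (key w y hw' y1) (key w z hw' z1)
  have h0 : ∀ i, ∃ (σ : V → Bool) (Q : Bool → Bool → Prop),
      ∀ u ∈ {v | v ∉ Set.range k ∧ (c v = none ∨ c v = some i)},
      ∀ v ∈ {v | v ∉ Set.range k ∧ (c v = none ∨ c v = some i)}, u ≠ v →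
      (G.Adj u v ↔ Q (σ u) (σ v)) := fun i => hG.homog _ (hco i)
  choose σ Q hQ using h0
  -- good and bad classes
  let gd : Fin 3 → Prop := fun i => ∀ u v, u ∉ Set.range k → v ∉ Set.range k → c u = some i →
    c v = some i → ¬ G.Adj u v
  let W := {v : V // v ∉ Set.range k ∧ ∃ i, c v = some i ∧ gd i}
  let cl : W → Fin 3 := fun w => w.2.2.choose
  have hcl : ∀ w : W, c w.1 = some (cl w) := fun w => w.2.2.choose_spec.1
  have hgd : ∀ w : W, gd (cl w) := fun w => w.2.2.choose_spec.2
  let G' : SimpleGraph W := G.comap Subtype.val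
  have hadj' : ∀ u v : W, G'.Adj u v ↔ G.Adj u.1 v.1 := fun u v => Iff.rfl
  have hkadj : ∀ (w : W) i, G.Adj w.1 (k i) ↔ cl w = i := by
    intro w i
    rw [F.hc w.1 w.2.1 i, hcl w]
    simp
  have ind : ∀ u v : W, cl u = cl v → ¬ G'.Adj u v := by
    intro u v huv
    exact hgd u u.1 v.1 u.2.1 v.2.1 (hcl u) (by rw [hcl v, huv])
  have t2 : ∀ u v u' v' : W, cl u = cl u' → cl v = cl v' → cl u ≠ cl v → G'.Adj u v →
      G'.Adj u' v' → ¬ G'.Adj u v' → ¬ G'.Adj u' v → False := by
    intro u v u' v' h1 h2 h3 a1 a2 n1 n2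
    obtain ⟨z, hz1, hz2⟩ := cl_third (cl u) (cl v)
    have hz : ∀ w : W, cl w = cl u ∨ cl w = cl v → ¬ G.Adj (k z) w.1 := by
      intro w hw h
      have := (hkadj w z).1 h.symm
      rcases hw with hw | hw
      · exact hz1 (this.symm.trans hw)
      · exact hz2 (this.symm.trans hw)
    exact hG.p (k z) u.1 v.1 u'.1 v'.1 a1 a2 (ind _ _ h1) n1 (fun h => n2 h.symm) (ind _ _ h2)
      (hz u (Or.inl rfl)) (hz v (Or.inr rfl)) (hz u' (Or.inl h1.symm)) (hz v' (Or.inr h2.symm))
  have h2 : ∀ u u' v w : W, cl u = cl u' → cl u ≠ cl v → cl v ≠ cl w → cl u ≠ cl w →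
      ¬ G'.Adj u w → ¬ G'.Adj u' w → ¬ G'.Adj v w → G'.Adj u v → G'.Adj u' v := by
    intro u u' v w e1 e2 e3 e4 n1 n2 n3 a1
    by_contra a2
    have hw : ∀ x : W, cl x ≠ cl w → ¬ G.Adj x.1 (k (cl w)) := by
      intro x hx h
      exact hx ((hkadj x _).1 h)
    exact hG.p u'.1 w.1 (k (cl w)) u.1 v.1 ((hkadj w _).2 rfl) a1 (fun h => n1 h.symm)
      (fun h => n3 h.symm) (fun h => hw u e4 h.symm) (fun h => hw v e3 h.symm) n2
      (hw u' (by rw [← e1]; exact e4)) (ind _ _ e1.symm) a2
  have t3 : ∀ a b c b' c', Tri G' cl a b c → Tri G' cl a b' c' → b = b' ∧ c = c' := by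
    intro a b c b' c' ht ht'
    obtain ⟨k1, k2, ab, bc, ca⟩ := ht
    obtain ⟨l1, l2, ab', bc', ca'⟩ := ht'
    have eb : cl b = cl b' := by rw [k1, l1]
    have ec : cl c = cl c' := by rw [k2, l2, eb]
    have n1 : c ≠ c' → ¬ G'.Adj b c' := by
      intro hne h
      exact ind c c' ec (hG.d a.1 b.1 c.1 c'.1 ab ca.symm bc ca'.symm h
        (fun h => hne (Subtype.ext h)))
    have n2 : c ≠ c' → ¬ G'.Adj b' c := by
      intro hne h
      exact ind c' c ec.symm (hG.d a.1 b'.1 c'.1 c.1 ab' ca'.symm bc' ca.symm h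
        (fun h => hne (Subtype.ext h.symm)))
    by_cases hcc : c = c'
    · refine ⟨?_, hcc⟩
      by_contra hbb
      subst hcc
      exact ind b b' eb (hG.d a.1 c.1 b.1 b'.1 ca.symm ab bc.symm ab' bc'.symm
        (fun h => hbb (Subtype.ext h)))
    · exact (t2 b c b' c' eb ec (cl_ne _ _ k2) bc bc' (n1 hcc) (n2 hcc)).elim
  obtain ⟨pos, fl, R, S, hR, hS⟩ := tripartite (G := G') (cl := cl) t2 t3 h2
  -- layered structure on the good part
  let s : Set V := {v | v ∉ Set.range k ∧ (c v = none ∨ ∃ i, c v = some i ∧ gd i)}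
  let pos' : V → ℕ := fun v => if h : v ∉ Set.range k ∧ ∃ i, c v = some i ∧ gd i then
    pos ⟨v, h⟩ else 0
  let fl' : V → Bool := fun v => if h : v ∉ Set.range k ∧ ∃ i, c v = some i ∧ gd i then
    fl ⟨v, h⟩ else false
  let T := Option (Fin 3) × Bool × (Fin 3 → Bool)
  let RR : (Fin 3 × Bool → Fin 3 × Bool → Prop) → T → T → Prop := fun R t t' =>
    match t.1, t'.1 with
    | none, none => Q 0 (t.2.2 0) (t'.2.2 0)
    | none, some j => Q j (t.2.2 j) (t'.2.2 j)
    | some i, none => Q i (t.2.2 i) (t'.2.2 i)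
    | some i, some j => if i = j then False else R (i, t.2.1) (j, t'.2.1)
  have hs : Lay G s (Fintype.card T) := by
    refine Lay.of_type (T := T) (fun v => (c v, fl' v, fun i => σ i v)) (fun _ => 0) pos'
      (RR R) (RR R) (RR S) ?_ le_rfl
    intro u hu v hv huv
    refine ⟨fun h => absurd h (lt_irrefl _), ?_⟩
    have main : ∀ (X : Fin 3 × Bool → Fin 3 × Bool → Prop),
        (∀ (u' v' : W), u'.1 = u → v'.1 = v → cl u' ≠ cl v' →
          (G'.Adj u' v' ↔ X (cl u', fl u') (cl v', fl v'))) →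
        (G.Adj u v ↔ RR X (c u, fl' u, fun i => σ i u) (c v, fl' v, fun i => σ i v)) := by
      intro X hX
      rcases hu.2 with hcu | ⟨i, hcu, hgi⟩
      · rcases hv.2 with hcv | ⟨j, hcv, hgj⟩
        · simp only [RR, hcu, hcv]
          exact hQ 0 u ⟨hu.1, Or.inl hcu⟩ v ⟨hv.1, Or.inl hcv⟩ huv
        · simp only [RR, hcu, hcv]
          exact hQ j u ⟨hu.1, Or.inl hcu⟩ v ⟨hv.1, Or.inr hcv⟩ huv
      · rcases hv.2 with hcv | ⟨j, hcv, hgj⟩
        · simp only [RR, hcu, hcv]
          exact hQ i u ⟨hu.1, Or.inr hcu⟩ v ⟨hv.1, Or.inl hcv⟩ huv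
        · simp only [RR, hcu, hcv]
          by_cases hij : i = j
          · subst hij
            simp only [if_true, iff_false]
            exact hgi u v hu.1 hv.1 hcu hcv
          · simp only [hij, if_false]
            have hu' : u ∉ Set.range k ∧ ∃ i, c u = some i ∧ gd i := ⟨hu.1, i, hcu, hgi⟩
            have hv' : v ∉ Set.range k ∧ ∃ i, c v = some i ∧ gd i := ⟨hv.1, j, hcv, hgj⟩
            have ei : cl ⟨u, hu'⟩ = i := by
              have := hcl ⟨u, hu'⟩
              rw [hcu] at this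
              exact (Option.some.inj this).symm
            have ej : cl ⟨v, hv'⟩ = j := by
              have := hcl ⟨v, hv'⟩
              rw [hcv] at this
              exact (Option.some.inj this).symm
            have := hX ⟨u, hu'⟩ ⟨v, hv'⟩ rfl rfl (by rw [ei, ej]; exact hij)
            rw [ei, ej] at this
            simp only [fl', dif_pos hu', dif_pos hv']
            exact this
    refine ⟨fun _ hlt => main R ?_, fun _ heq => main S ?_⟩
    · rintro u' v' rfl rfl hne
      apply hR u' v' hne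
      have h1 : pos' u'.1 = pos u' := dif_pos u'.2
      have h2 : pos' v'.1 = pos v' := dif_pos v'.2
      rw [← h1, ← h2]; exact hlt
    · rintro u' v' rfl rfl hne
      apply hS u' v' hne
      have h1 : pos' u'.1 = pos u' := dif_pos u'.2
      have h2 : pos' v'.1 = pos v' := dif_pos v'.2
      rw [← h1, ← h2]; exact heq
  -- bad classes are small
  have hbad : ∀ i, ¬ gd i →
      (Finset.univ.filter (fun v => v ∉ Set.range k ∧ c v = some i)).card ≤ 2 := by
    intro i hi
    simp only [gd] at hi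
    push Not at hi
    obtain ⟨u, v, hu, hv, hcu, hcv, huv⟩ := hi
    have hsub : (Finset.univ.filter (fun v => v ∉ Set.range k ∧ c v = some i)) ⊆ {u, v} := by
      intro w hw
      simp only [Finset.mem_filter, Finset.mem_univ, true_and] at hw
      simp only [Finset.mem_insert, Finset.mem_singleton]
      by_contra hcon
      push Not at hcon
      have au : G.Adj (k i) u := ((F.hc u hu i).2 hcu).symm
      have av : G.Adj (k i) v := ((F.hc v hv i).2 hcv).symm
      have aw : G.Adj (k i) w := ((F.hc w hw.1 i).2 hw.2).symm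
      have hor : G.Adj u w ∨ G.Adj w v := by
        by_contra h
        push Not at h
        exact hco i u ⟨hu, Or.inr hcu⟩ w ⟨hw.1, Or.inr hw.2⟩ v ⟨hv, Or.inr hcv⟩ h.1 h.2 huv
      rcases hor with h | h
      · have := hG.d (k i) u v w au av huv aw h (Ne.symm hcon.2)
        exact hK4 _ _ _ _ au av aw huv h this
      · have := hG.d (k i) v u w av au huv.symm aw h.symm (Ne.symm hcon.1)
        exact hK4 _ _ _ _ au av aw huv this h.symm
    exact (Finset.card_le_card hsub).trans Finset.card_le_two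
  let core : Finset V := (Finset.univ.image k) ∪
    (Finset.univ.biUnion (fun i : Fin 3 => if gd i then ∅ else
      (Finset.univ.filter (fun v => v ∉ Set.range k ∧ c v = some i))))
  have hcore : core.card ≤ 9 := by
    refine (Finset.card_union_le _ _).trans ?_
    have h1 : (Finset.univ.image k).card ≤ 3 := Finset.card_image_le.trans (by simp)
    have h2 : (Finset.univ.biUnion (fun i : Fin 3 => if gd i then ∅ else
      (Finset.univ.filter (fun v => v ∉ Set.range k ∧ c v = some i)))).card ≤ 6 := by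
      refine Finset.card_biUnion_le.trans ?_
      refine (Finset.sum_le_card_nsmul _ _ 2 ?_).trans (by simp)
      intro i _
      by_cases hi : gd i
      · simp [hi]
      · simp only [hi, if_false]
        exact hbad i hi
    omega
  refine (hs.add_finset 9 core hcore).subset ?_
  intro v _
  by_cases hv : v ∈ Set.range k
  · right
    simp only [core, Finset.coe_union, Set.mem_union]
    left
    simpa using hv
  · cases hcv : c v with
    | none => exact Or.inl ⟨hv, Or.inl hcv⟩
    | some i =>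
      by_cases hi : gd i
      · exact Or.inl ⟨hv, Or.inr ⟨i, hcv, hi⟩⟩
      · right
        simp only [core, Finset.coe_union, Set.mem_union]
        right
        simp only [Finset.coe_biUnion, Set.mem_iUnion]
        refine ⟨i, by simp, ?_⟩
        simp only [hi, if_false]
        simpa using ⟨by simpa using hv, hcv⟩

end Frames

end Pool.Agent.V8H30.Wqo
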