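import Pool.Agent.V8H30.WqoOdd

/-!
Triangle-free (P₁+2P₂)-free graphs with a pentagon are layered.
-/

namespace Pool.Agent.V8H30.Wqo

open Set SimpleGraph

universe u

/-- Adjacency pattern of a type towards the pentagon. -/
def Sf (t : Fin 3 × Fin 5) (j : Fin 5) : Prop :=
  (t.1 = 0 ∧ (j = t.2 + 1 ∨ j = t.2 + 4)) ∨ (t.1 = 1 ∧ j = t.2)

instance (t : Fin 3 × Fin 5) (j : Fin 5) : Decidable (Sf t j) := by unfold Sf; infer_instance

theorem five_bool : ∀ a b c d e : Bool,
    (a && b) = false → (b && c) = false → (c && d) = false → (d && e) = false →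
    (e && a) = false →
    ∃ t : Fin 3 × Fin 5, ∀ j : Fin 5, (![a, b, c, d, e] j = true ↔ Sf t j) := by
  intro a b c d e
  cases a <;> cases b <;> cases c <;> cases d <;> cases e <;>
    first
    | (intros; simp_all; done)
    | (intros; exact ⟨(2, 0), by decide⟩)
    | (intros; exact ⟨(0, 0), by decide⟩)
    | (intros; exact ⟨(0, 1), by decide⟩)
    | (intros; exact ⟨(0, 2), by decide⟩)
    | (intros; exact ⟨(0, 3), by decide⟩)
    | (intros; exact ⟨(0, 4), by decide⟩)
    | (intros; exact ⟨(1, 0), by decide⟩)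
    | (intros; exact ⟨(1, 1), by decide⟩)
    | (intros; exact ⟨(1, 2), by decide⟩)
    | (intros; exact ⟨(1, 3), by decide⟩)
    | (intros; exact ⟨(1, 4), by decide⟩)

theorem five_cover : ∀ i j : Fin 5, j = i ∨ j = i + 1 ∨ j = i + 2 ∨ j = i + 3 ∨ j = i + 4 := by
  decide

abbrev IsV {V : Type u} (G : SimpleGraph V) (k : Fin 5 → V) (i : Fin 5) (v : V) : Prop :=
  ∀ j, G.Adj v (k j) ↔ (j = i + 1 ∨ j = i + 4)

abbrev IsW {V : Type u} (G : SimpleGraph V) (k : Fin 5 → V) (i : Fin 5) (v : V) : Prop :=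
  ∀ j, G.Adj v (k j) ↔ j = i

abbrev IsZ {V : Type u} (G : SimpleGraph V) (k : Fin 5 → V) (v : V) : Prop :=
  ∀ j, ¬ G.Adj v (k j)

section Five

variable {V : Type u} {G : SimpleGraph V} (hG : Good G)
  (no3 : ∀ a b c, G.Adj a b → G.Adj b c → ¬ G.Adj c a)
  {k : Fin 5 → V} (hk : ∀ i, G.Adj (k i) (k (i + 1)))

include no3 hk in
theorem core_iff (i j : Fin 5) : G.Adj (k i) (k j) ↔ (j = i + 1 ∨ j = i + 4) := by
  have e4 : ∀ i : Fin 5, i + 4 + 1 = i := by decide
  have a4 : ∀ i, G.Adj (k i) (k (i + 4)) := fun i => by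
    have := hk (i + 4); rw [e4] at this; exact this.symm
  have n2 : ∀ i, ¬ G.Adj (k i) (k (i + 2)) := by
    intro i h
    have := hk (i + 1)
    rw [add_assoc] at this
    exact no3 _ _ _ (hk i) this h.symm
  have n3 : ∀ i, ¬ G.Adj (k i) (k (i + 3)) := by
    intro i h
    have := n2 (i + 3)
    rw [show ∀ i : Fin 5, i + 3 + 2 = i by decide] at this
    exact this h.symm
  have e0 : ∀ i : Fin 5, ¬ (i = i + 1 ∨ i = i + 4) := by decide
  rcases five_cover i j with rfl | rfl | rfl | rfl | rfl
  · exact ⟨fun h => absurd h (G.irrefl), fun h => absurd h (e0 _)⟩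
  · exact ⟨fun _ => Or.inl rfl, fun _ => hk i⟩
  · exact ⟨fun h => absurd h (n2 i), fun h => absurd h (by simp)⟩
  · exact ⟨fun h => absurd h (n3 i), fun h => absurd h (by simp)⟩
  · exact ⟨fun _ => Or.inr rfl, fun _ => a4 i⟩

variable (hc : ∀ i j : Fin 5, G.Adj (k i) (k j) ↔ (j = i + 1 ∨ j = i + 4))

include no3 in
theorem vv0 {i : Fin 5} {u v : V} (hu : IsV G k i u) (hv : IsV G k i v) : ¬ G.Adj u v := by
  intro h
  exact no3 u v (k (i + 1)) h (by first | (rw [hv]; done) | (rw [SimpleGraph.adj_comm, hv]; done) | (rw [hv]; simp [add_assoc]; done) | (rw [SimpleGraph.adj_comm, hv]; simp [add_assoc]; done)) (by first | (rw [hu]; done) | (rw [SimpleGraph.adj_comm, hu]; done) | (rw [hu]; simp [add_assoc]; done) | (rw [SimpleGraph.adj_comm, hu]; simp [add_assoc]; done))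

include no3 in
theorem vv2 {i : Fin 5} {u v : V} (hu : IsV G k i u) (hv : IsV G k (i + 2) v) :
    ¬ G.Adj u v := by
  intro h
  exact no3 u v (k (i + 1)) h (by first | (rw [hv]; done) | (rw [SimpleGraph.adj_comm, hv]; done) | (rw [hv]; simp [add_assoc]; done) | (rw [SimpleGraph.adj_comm, hv]; simp [add_assoc]; done)) (by first | (rw [hu]; done) | (rw [SimpleGraph.adj_comm, hu]; done) | (rw [hu]; simp [add_assoc]; done) | (rw [SimpleGraph.adj_comm, hu]; simp [add_assoc]; done))

include no3 in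
theorem vw1 {i : Fin 5} {u v : V} (hu : IsV G k i u) (hv : IsW G k (i + 1) v) :
    ¬ G.Adj u v := by
  intro h
  exact no3 u v (k (i + 1)) h (by first | (rw [hv]; done) | (rw [SimpleGraph.adj_comm, hv]; done) | (rw [hv]; simp [add_assoc]; done) | (rw [SimpleGraph.adj_comm, hv]; simp [add_assoc]; done)) (by first | (rw [hu]; done) | (rw [SimpleGraph.adj_comm, hu]; done) | (rw [hu]; simp [add_assoc]; done) | (rw [SimpleGraph.adj_comm, hu]; simp [add_assoc]; done))

include no3 in
theorem vw4 {i : Fin 5} {u v : V} (hu : IsV G k i u) (hv : IsW G k (i + 4) v) :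
    ¬ G.Adj u v := by
  intro h
  exact no3 u v (k (i + 4)) h (by first | (rw [hv]; done) | (rw [SimpleGraph.adj_comm, hv]; done) | (rw [hv]; simp [add_assoc]; done) | (rw [SimpleGraph.adj_comm, hv]; simp [add_assoc]; done)) (by first | (rw [hu]; done) | (rw [SimpleGraph.adj_comm, hu]; done) | (rw [hu]; simp [add_assoc]; done) | (rw [SimpleGraph.adj_comm, hu]; simp [add_assoc]; done))

include no3 in
theorem ww0 {i : Fin 5} {u v : V} (hu : IsW G k i u) (hv : IsW G k i v) : ¬ G.Adj u v := by
  intro h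
  exact no3 u v (k i) h (by first | (rw [hv]; done) | (rw [SimpleGraph.adj_comm, hv]; done) | (rw [hv]; simp [add_assoc]; done) | (rw [SimpleGraph.adj_comm, hv]; simp [add_assoc]; done)) (by first | (rw [hu]; done) | (rw [SimpleGraph.adj_comm, hu]; done) | (rw [hu]; simp [add_assoc]; done) | (rw [SimpleGraph.adj_comm, hu]; simp [add_assoc]; done))

include hG hc

theorem vw0 {i : Fin 5} {v w : V} (hv : IsV G k i v) (hw : IsW G k i w) : G.Adj v w := by
  by_contra h
  exact hG.p v w (k i) (k (i + 2)) (k (i + 3)) (by first | (rw [hw]; done) | (rw [SimpleGraph.adj_comm, hw]; done) | (rw [hw]; simp [add_assoc]; done) | (rw [SimpleGraph.adj_comm, hw]; simp [add_assoc]; done)) (by first | (rw [hc]; done) | (rw [SimpleGraph.adj_comm, hc]; done) | (rw [hc]; simp [add_assoc]; done) | (rw [SimpleGraph.adj_comm, hc]; simp [add_assoc]; done)) (by first | (rw [hw]; done) | (rw [SimpleGraph.adj_comm, hw]; done) | (rw [hw]; simp [add_assoc]; done) | (rw [SimpleGraph.adj_comm, hw]; simp [add_assoc];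 done)) (by first | (rw [hw]; done) | (rw [SimpleGraph.adj_comm, hw]; done) | (rw [hw]; simp [add_assoc]; done) | (rw [SimpleGraph.adj_comm, hw]; simp [add_assoc]; done))
    (by first | (rw [hc]; done) | (rw [SimpleGraph.adj_comm, hc]; done) | (rw [hc]; simp [add_assoc]; done) | (rw [SimpleGraph.adj_comm, hc]; simp [add_assoc]; done)) (by first | (rw [hc]; done) | (rw [SimpleGraph.adj_comm, hc]; done) | (rw [hc]; simp [add_assoc]; done) | (rw [SimpleGraph.adj_comm, hc]; simp [add_assoc]; done)) h (by first | (rw [hv]; done) | (rw [SimpleGraph.adj_comm, hv]; done) | (rw [hv]; simp [add_assoc]; done) | (rw [SimpleGraph.adj_comm, hv]; simp [add_assoc]; done)) (by first | (rw [hv]; done) | (rw [SimpleGraph.adj_comm, hv]; done) | (rw [hv]; simp [add_assoc]; done) | (rw [SimpleGraph.adj_comm, hv]; simp [add_assoc]; done)) (by first | (rw [hv]; done) | (rw [SimpleGraph.adj_comm, hv]; done) | (rw [hv]; simp [add_assoc]; done) | (rw [SimpleGraph.adj_comm, hv]; simp [add_assoc]; done))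

theorem ww1 {i : Fin 5} {v w : V} (hv : IsW G k i v) (hw : IsW G k (i + 1) w) :
    G.Adj v w := by
  by_contra h
  exact hG.p w v (k i) (k (i + 2)) (k (i + 3)) (by first | (rw [hv]; done) | (rw [SimpleGraph.adj_comm, hv]; done) | (rw [hv]; simp [add_assoc]; done) | (rw [SimpleGraph.adj_comm, hv]; simp [add_assoc]; done)) (by first | (rw [hc]; done) | (rw [SimpleGraph.adj_comm, hc]; done) | (rw [hc]; simp [add_assoc]; done) | (rw [SimpleGraph.adj_comm, hc]; simp [add_assoc]; done)) (by first | (rw [hv]; done) | (rw [SimpleGraph.adj_comm, hv]; done) | (rw [hv]; simp [add_assoc]; done) | (rw [SimpleGraph.adj_comm, hv]; simp [add_assoc]; done)) (by first | (rw [hv]; done) | (rw [SimpleGraph.adj_comm, hv]; done) | (rw [hv]; simp [add_assoc]; done) | (rw [SimpleGraph.adj_comm, hv]; simp [add_assoc]; done))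
    (by first | (rw [hc]; done) | (rw [SimpleGraph.adj_comm, hc]; done) | (rw [hc]; simp [add_assoc]; done) | (rw [SimpleGraph.adj_comm, hc]; simp [add_assoc]; done)) (by first | (rw [hc]; done) | (rw [SimpleGraph.adj_comm, hc]; done) | (rw [hc]; simp [add_assoc]; done) | (rw [SimpleGraph.adj_comm, hc]; simp [add_assoc]; done)) (fun hh => h hh.symm) (by first | (rw [hw]; done) | (rw [SimpleGraph.adj_comm, hw]; done) | (rw [hw]; simp [add_assoc]; done) | (rw [SimpleGraph.adj_comm, hw]; simp [add_assoc]; done)) (by first | (rw [hw]; done) | (rw [SimpleGraph.adj_comm, hw]; done) | (rw [hw]; simp [add_assoc]; done) | (rw [SimpleGraph.adj_comm, hw]; simp [add_assoc]; done)) (by first | (rw [hw]; done) | (rw [SimpleGraph.adj_comm, hw]; done) | (rw [hw]; simp [add_assoc]; done) | (rw [SimpleGraph.adj_comm, hw]; simp [add_assoc]; done))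

theorem ww2 {i : Fin 5} {v w : V} (hv : IsW G k i v) (hw : IsW G k (i + 2) w) :
    ¬ G.Adj v w := by
  intro h
  exact hG.p (k (i + 1)) v w (k (i + 3)) (k (i + 4)) h (by first | (rw [hc]; done) | (rw [SimpleGraph.adj_comm, hc]; done) | (rw [hc]; simp [add_assoc]; done) | (rw [SimpleGraph.adj_comm, hc]; simp [add_assoc]; done)) (by first | (rw [hv]; done) | (rw [SimpleGraph.adj_comm, hv]; done) | (rw [hv]; simp [add_assoc]; done) | (rw [SimpleGraph.adj_comm, hv]; simp [add_assoc]; done)) (by first | (rw [hv]; done) | (rw [SimpleGraph.adj_comm, hv]; done) | (rw [hv]; simp [add_assoc]; done) | (rw [SimpleGraph.adj_comm, hv]; simp [add_assoc]; done))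
    (by first | (rw [hw]; done) | (rw [SimpleGraph.adj_comm, hw]; done) | (rw [hw]; simp [add_assoc]; done) | (rw [SimpleGraph.adj_comm, hw]; simp [add_assoc]; done)) (by first | (rw [hw]; done) | (rw [SimpleGraph.adj_comm, hw]; done) | (rw [hw]; simp [add_assoc]; done) | (rw [SimpleGraph.adj_comm, hw]; simp [add_assoc]; done)) (by first | (rw [hv]; done) | (rw [SimpleGraph.adj_comm, hv]; done) | (rw [hv]; simp [add_assoc]; done) | (rw [SimpleGraph.adj_comm, hv]; simp [add_assoc]; done)) (by first | (rw [hw]; done) | (rw [SimpleGraph.adj_comm, hw]; done) | (rw [hw]; simp [add_assoc]; done) | (rw [SimpleGraph.adj_comm, hw]; simp [add_assoc]; done)) (by first | (rw [hc]; done) | (rw [SimpleGraph.adj_comm, hc]; done) | (rw [hc]; simp [add_assoc]; done) | (rw [SimpleGraph.adj_comm, hc]; simp [add_assoc]; done)) (by first | (rw [hc]; done) | (rw [SimpleGraph.adj_comm, hc]; done) | (rw [hc]; simp [add_assoc]; done) | (rw [SimpleGraph.adj_comm, hc]; simp [add_assoc]; done))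

theorem zv {i : Fin 5} {z v : V} (hz : IsZ G k z) (hv : IsV G k i v) : ¬ G.Adj z v := by
  intro h
  exact hG.p (k i) z v (k (i + 2)) (k (i + 3)) h (by first | (rw [hc]; done) | (rw [SimpleGraph.adj_comm, hc]; done) | (rw [hc]; simp [add_assoc]; done) | (rw [SimpleGraph.adj_comm, hc]; simp [add_assoc]; done)) (hz _) (hz _)
    (by first | (rw [hv]; done) | (rw [SimpleGraph.adj_comm, hv]; done) | (rw [hv]; simp [add_assoc]; done) | (rw [SimpleGraph.adj_comm, hv]; simp [add_assoc]; done)) (by first | (rw [hv]; done) | (rw [SimpleGraph.adj_comm, hv]; done) | (rw [hv]; simp [add_assoc]; done) | (rw [SimpleGraph.adj_comm, hv]; simp [add_assoc]; done)) (fun hh => hz _ hh.symm) (by first | (rw [hv]; done) | (rw [SimpleGraph.adj_comm, hv]; done) | (rw [hv]; simp [add_assoc]; done) | (rw [SimpleGraph.adj_comm, hv]; simp [add_assoc]; done)) (by first | (rw [hc]; done) | (rw [SimpleGraph.adj_comm, hc]; done) | (rw [hc]; simp [add_assoc]; done) | (rw [SimpleGraph.adj_comm, hc]; simp [add_assoc];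 done)) (by first | (rw [hc]; done) | (rw [SimpleGraph.adj_comm, hc]; done) | (rw [hc]; simp [add_assoc]; done) | (rw [SimpleGraph.adj_comm, hc]; simp [add_assoc]; done))

theorem zw {i : Fin 5} {z v : V} (hz : IsZ G k z) (hv : IsW G k i v) : ¬ G.Adj z v := by
  intro h
  exact hG.p (k (i + 4)) z v (k (i + 1)) (k (i + 2)) h (by first | (rw [hc]; done) | (rw [SimpleGraph.adj_comm, hc]; done) | (rw [hc]; simp [add_assoc]; done) | (rw [SimpleGraph.adj_comm, hc]; simp [add_assoc]; done)) (hz _) (hz _)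
    (by first | (rw [hv]; done) | (rw [SimpleGraph.adj_comm, hv]; done) | (rw [hv]; simp [add_assoc]; done) | (rw [SimpleGraph.adj_comm, hv]; simp [add_assoc]; done)) (by first | (rw [hv]; done) | (rw [SimpleGraph.adj_comm, hv]; done) | (rw [hv]; simp [add_assoc]; done) | (rw [SimpleGraph.adj_comm, hv]; simp [add_assoc]; done)) (fun hh => hz _ hh.symm) (by first | (rw [hv]; done) | (rw [SimpleGraph.adj_comm, hv]; done) | (rw [hv]; simp [add_assoc]; done) | (rw [SimpleGraph.adj_comm, hv]; simp [add_assoc]; done)) (by first | (rw [hc]; done) | (rw [SimpleGraph.adj_comm, hc]; done) | (rw [hc]; simp [add_assoc]; done) | (rw [SimpleGraph.adj_comm, hc]; simp [add_assoc]; done)) (by first | (rw [hc]; done) | (rw [SimpleGraph.adj_comm, hc]; done) | (rw [hc]; simp [add_assoc]; done) | (rw [SimpleGraph.adj_comm, hc]; simp [add_assoc]; done))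

theorem zz {z v : V} (hz : IsZ G k z) (hv : IsZ G k v) : ¬ G.Adj z v := by
  intro h
  exact hG.p (k 3) z v (k 0) (k 1) h (by rw [hc]; decide) (hz _) (hz _)
    (hv _) (hv _) (fun hh => hz _ hh.symm) (fun hh => hv _ hh.symm)
    (by rw [hc]; decide) (by rw [hc]; decide)

include no3

theorem ex1 {i : Fin 5} {v u u' : V} (hv : IsV G k i v) (hu : IsV G k (i + 1) u)
    (hu' : IsV G k (i + 4) u') (n1 : ¬ G.Adj v u) (n2 : ¬ G.Adj v u') : False := by
  have n3 : ¬ G.Adj u' u := vv2 no3 hu' (by
    have : ∀ i : Fin 5, i + 4 + 2 = i + 1 := by decide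
    rw [this]; exact hu)
  exact hG.p u' v (k (i + 4)) u (k (i + 2)) (by first | (rw [hv]; done) | (rw [SimpleGraph.adj_comm, hv]; done) | (rw [hv]; simp [add_assoc]; done) | (rw [SimpleGraph.adj_comm, hv]; simp [add_assoc]; done)) (by first | (rw [hu]; done) | (rw [SimpleGraph.adj_comm, hu]; done) | (rw [hu]; simp [add_assoc]; done) | (rw [SimpleGraph.adj_comm, hu]; simp [add_assoc]; done)) n1 (by first | (rw [hv]; done) | (rw [SimpleGraph.adj_comm, hv]; done) | (rw [hv]; simp [add_assoc]; done) | (rw [SimpleGraph.adj_comm, hv]; simp [add_assoc]; done)) (by first | (rw [hu]; done) | (rw [SimpleGraph.adj_comm, hu]; done) | (rw [hu]; simp [add_assoc]; done) | (rw [SimpleGraph.adj_comm, hu]; simp [add_assoc]; done))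
    (by first | (rw [hc]; done) | (rw [SimpleGraph.adj_comm, hc]; done) | (rw [hc]; simp [add_assoc]; done) | (rw [SimpleGraph.adj_comm, hc]; simp [add_assoc]; done)) (fun h => n2 h.symm) (by first | (rw [hu']; done) | (rw [SimpleGraph.adj_comm, hu']; done) | (rw [hu']; simp [add_assoc]; done) | (rw [SimpleGraph.adj_comm, hu']; simp [add_assoc]; done)) n3 (by first | (rw [hu']; done) | (rw [SimpleGraph.adj_comm, hu']; done) | (rw [hu']; simp [add_assoc]; done) | (rw [SimpleGraph.adj_comm, hu']; simp [add_assoc]; done))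

theorem ex2 {i : Fin 5} {v u w : V} (hv : IsV G k i v) (hu : IsV G k (i + 1) u)
    (hw : IsW G k (i + 2) w) (n1 : ¬ G.Adj v u) (a : G.Adj v w) : False := by
  have n3 : ¬ G.Adj u w := vw1 no3 hu (by rw [add_assoc]; exact hw)
  exact hG.p (k (i + 3)) v w u (k i) a (by first | (rw [hu]; done) | (rw [SimpleGraph.adj_comm, hu]; done) | (rw [hu]; simp [add_assoc]; done) | (rw [SimpleGraph.adj_comm, hu]; simp [add_assoc]; done)) n1 (by first | (rw [hv]; done) | (rw [SimpleGraph.adj_comm, hv]; done) | (rw [hv]; simp [add_assoc]; done) | (rw [SimpleGraph.adj_comm, hv]; simp [add_assoc]; done)) (fun h => n3 h.symm)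
    (by first | (rw [hw]; done) | (rw [SimpleGraph.adj_comm, hw]; done) | (rw [hw]; simp [add_assoc]; done) | (rw [SimpleGraph.adj_comm, hw]; simp [add_assoc]; done)) (by first | (rw [hv]; done) | (rw [SimpleGraph.adj_comm, hv]; done) | (rw [hv]; simp [add_assoc]; done) | (rw [SimpleGraph.adj_comm, hv]; simp [add_assoc]; done)) (by first | (rw [hw]; done) | (rw [SimpleGraph.adj_comm, hw]; done) | (rw [hw]; simp [add_assoc]; done) | (rw [SimpleGraph.adj_comm, hw]; simp [add_assoc]; done)) (by first | (rw [hu]; done) | (rw [SimpleGraph.adj_comm, hu]; done) | (rw [hu]; simp [add_assoc]; done) | (rw [SimpleGraph.adj_comm, hu]; simp [add_assoc]; done)) (by first | (rw [hc]; done) | (rw [SimpleGraph.adj_comm, hc]; done) | (rw [hc]; simp [add_assoc]; done) | (rw [SimpleGraph.adj_comm, hc]; simp [add_assoc]; done))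

theorem ex3 {i : Fin 5} {v u w : V} (hv : IsV G k i v) (hu : IsV G k (i + 4) u)
    (hw : IsW G k (i + 3) w) (n1 : ¬ G.Adj v u) (a : G.Adj v w) : False := by
  have n3 : ¬ G.Adj u w := vw4 no3 hu (by
    have : ∀ i : Fin 5, i + 4 + 4 = i + 3 := by decide
    rw [this]; exact hw)
  exact hG.p (k (i + 2)) v w u (k i) a (by first | (rw [hu]; done) | (rw [SimpleGraph.adj_comm, hu]; done) | (rw [hu]; simp [add_assoc]; done) | (rw [SimpleGraph.adj_comm, hu]; simp [add_assoc]; done)) n1 (by first | (rw [hv]; done) | (rw [SimpleGraph.adj_comm, hv]; done) | (rw [hv]; simp [add_assoc]; done) | (rw [SimpleGraph.adj_comm, hv]; simp [add_assoc]; done)) (fun h => n3 h.symm)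
    (by first | (rw [hw]; done) | (rw [SimpleGraph.adj_comm, hw]; done) | (rw [hw]; simp [add_assoc]; done) | (rw [SimpleGraph.adj_comm, hw]; simp [add_assoc]; done)) (by first | (rw [hv]; done) | (rw [SimpleGraph.adj_comm, hv]; done) | (rw [hv]; simp [add_assoc]; done) | (rw [SimpleGraph.adj_comm, hv]; simp [add_assoc]; done)) (by first | (rw [hw]; done) | (rw [SimpleGraph.adj_comm, hw]; done) | (rw [hw]; simp [add_assoc]; done) | (rw [SimpleGraph.adj_comm, hw]; simp [add_assoc]; done)) (by first | (rw [hu]; done) | (rw [SimpleGraph.adj_comm, hu]; done) | (rw [hu]; simp [add_assoc]; done) | (rw [SimpleGraph.adj_comm, hu]; simp [add_assoc]; done)) (by first | (rw [hc]; done) | (rw [SimpleGraph.adj_comm, hc]; done) | (rw [hc]; simp [add_assoc]; done) | (rw [SimpleGraph.adj_comm, hc]; simp [add_assoc]; done))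

theorem ex4 {i : Fin 5} {v w w' : V} (_hv : IsV G k i v) (hw : IsW G k (i + 3) w)
    (hw' : IsW G k (i + 2) w') (a : G.Adj v w) (a' : G.Adj v w') : False := by
  have := ww1 hG hc hw' (by rw [add_assoc]; exact hw)
  exact no3 v w' w a' this a.symm

omit no3 in
theorem trans5 {j : Fin 5} {a b c : V} (ha : IsV G k (j + 2) a) (hb : IsV G k (j + 3) b)
    (hc' : IsW G k j c) (ab : ¬ G.Adj a b) (bc : ¬ G.Adj b c) (ca : ¬ G.Adj c a) : False := by
  exact hG.p c a (k (j + 1)) b (k (j + 4)) (by first | (rw [ha]; done) | (rw [SimpleGraph.adj_comm, ha]; done) | (rw [ha]; simp [add_assoc]; done) | (rw [SimpleGraph.adj_comm, ha]; simp [add_assoc]; done)) (by first | (rw [hb]; done) | (rw [SimpleGraph.adj_comm, hb]; done) | (rw [hb]; simp [add_assoc]; done) | (rw [SimpleGraph.adj_comm, hb]; simp [add_assoc]; done)) ab (by first | (rw [ha]; done) | (rw [SimpleGraph.adj_comm, ha]; done) | (rw [ha]; simp [add_assoc]; done) | (rw [SimpleGraph.adj_comm, ha]; simp [add_assoc]; done)) (by first | (rw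 [hb]; done) | (rw [SimpleGraph.adj_comm, hb]; done) | (rw [hb]; simp [add_assoc]; done) | (rw [SimpleGraph.adj_comm, hb]; simp [add_assoc]; done))
    (by first | (rw [hc]; done) | (rw [SimpleGraph.adj_comm, hc]; done) | (rw [hc]; simp [add_assoc]; done) | (rw [SimpleGraph.adj_comm, hc]; simp [add_assoc]; done)) ca (by first | (rw [hc']; done) | (rw [SimpleGraph.adj_comm, hc']; done) | (rw [hc']; simp [add_assoc]; done) | (rw [SimpleGraph.adj_comm, hc']; simp [add_assoc]; done)) (fun h => bc h.symm) (by first | (rw [hc']; done) | (rw [SimpleGraph.adj_comm, hc']; done) | (rw [hc']; simp [add_assoc]; done) | (rw [SimpleGraph.adj_comm, hc']; simp [add_assoc]; done))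

end Five

end Pool.Agent.V8H30.Wqo
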