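import Pool.Agent.V8H30.WqoClique

/-!
The forbidden induced subgraphs and their working form.
-/

namespace Pool.Agent.V8H30.Wqo

open Set SimpleGraph

universe u

/-- The diamond: the complete graph on four vertices minus one edge. -/
def diamond : SimpleGraph (Fin 4) := (⊤ : SimpleGraph (Fin 4)).deleteEdges {s(2, 3)}

/-- The graph `P₁ + 2P₂`: an isolated vertex `0` and the two disjoint edges `12` and `34`. -/
def oneTwoTwo : SimpleGraph (Fin 5) := SimpleGraph.fromEdgeSet {s(1, 2), s(3, 4)}

theorem good_of_free {V : Type u} {G : SimpleGraph V} (h₁ : ¬ diamond ⊴ G)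
    (h₂ : ¬ oneTwoTwo ⊴ G) : Good G := by
  constructor
  · intro a b c d ab ac bc ad bd hcd
    by_contra cd
    apply h₁
    refine ⟨⟨⟨![a, b, c, d], ?_⟩, ?_⟩⟩
    · intro i j hij
      have h1 := ab.ne
      have h2 := ac.ne
      have h3 := bc.ne
      have h4 := ad.ne
      have h5 := bd.ne
      fin_cases i <;> fin_cases j <;> simp_all [eq_comm]
    · intro i j
      have h1 := ab.symm
      have h2 := ac.symm
      have h3 := bc.symm
      have h4 := ad.symm
      have h5 := bd.symm
      have h6 : ¬ G.Adj d c := fun h => cd h.symm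
      change G.Adj (![a, b, c, d] i) (![a, b, c, d] j) ↔ _
      fin_cases i <;> fin_cases j <;>
        simp_all [diamond, SimpleGraph.deleteEdges_adj]
  · intro p a b c d ab cd ac ad bc bd pa pb pc pd
    apply h₂
    have na := ab.ne
    have nc := cd.ne
    have e1 : a ≠ c := by rintro rfl; exact ad cd
    have e2 : a ≠ d := by rintro rfl; exact ac cd.symm
    have e3 : b ≠ c := by rintro rfl; exact bd cd
    have e4 : b ≠ d := by rintro rfl; exact bc cd.symm
    have e5 : p ≠ a := by rintro rfl; exact pb ab
    have e6 : p ≠ b := by rintro rfl; exact pa ab.symm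
    have e7 : p ≠ c := by rintro rfl; exact pd cd
    have e8 : p ≠ d := by rintro rfl; exact pc cd.symm
    refine ⟨⟨⟨![p, a, b, c, d], ?_⟩, ?_⟩⟩
    · intro i j hij
      fin_cases i <;> fin_cases j <;> simp_all [eq_comm]
    · intro i j
      change G.Adj (![p, a, b, c, d] i) (![p, a, b, c, d] j) ↔ _
      have s1 := ab.symm
      have s2 := cd.symm
      have s3 : ¬ G.Adj c a := fun h => ac h.symm
      have s4 : ¬ G.Adj d a := fun h => ad h.symm
      have s5 : ¬ G.Adj c b := fun h => bc h.symm
      have s6 : ¬ G.Adj d b := fun h => bd h.symm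
      have s7 : ¬ G.Adj a p := fun h => pa h.symm
      have s8 : ¬ G.Adj b p := fun h => pb h.symm
      have s9 : ¬ G.Adj c p := fun h => pc h.symm
      have s10 : ¬ G.Adj d p := fun h => pd h.symm
      fin_cases i <;> fin_cases j <;>
        simp_all [oneTwoTwo, SimpleGraph.fromEdgeSet_adj]

end Pool.Agent.V8H30.Wqo
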