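import Mathlib

/-!
Layered graphs and Higman's lemma.

A finite graph is *layered* over a set `s` of vertices with `N` types if there are a type
function `τ : V → Fin N` and two position functions `p q : V → ℕ` such that adjacency of two
distinct vertices of `s` depends only on their types and on the lexicographic comparison of
their positions.  For fixed `N` such graphs are well-quasi-ordered by induced subgraphs.
-/

namespace Pool.Agent.V8H30.Wqo

open Set SimpleGraph

universe u v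

/-- Embedding of words `(length, letters)`. -/
def WEmb {α : Type u} (r : α → α → Prop) (w w' : ℕ × (ℕ → α)) : Prop :=
  ∃ φ : ℕ → ℕ, (∀ i j, i < j → j < w.1 → φ i < φ j) ∧
    ∀ i < w.1, φ i < w'.1 ∧ r (w.2 i) (w'.2 (φ i))

theorem wemb_of_sublist {α : Type u} {r : α → α → Prop} {f g : ℕ → α} {m m' : ℕ}
    (h : List.SublistForall₂ r ((List.range m).map f) ((List.range m').map g)) :
    WEmb r (m, f) (m', g) := by
  rw [List.sublistForall₂_map_left_iff, List.sublistForall₂_map_right_iff] at h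
  obtain ⟨l, hl, hs⟩ := List.sublistForall₂_iff.1 h
  have hlen : l.length = m := by simpa using hl.length_eq.symm
  have hpair : l.Pairwise (· < ·) := List.Pairwise.sublist hs (List.pairwise_lt_range)
  refine ⟨fun i => if hi : i < l.length then l[i] else 0, ?_, ?_⟩
  · intro i j hij hj
    have hj' : j < l.length := by simpa [hlen] using hj
    have hi' : i < l.length := lt_trans hij hj'
    have := List.pairwise_iff_getElem.1 hpair i j hi' hj' hij
    simpa [hi', hj'] using this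
  · intro i hi
    have hi' : i < l.length := by simpa [hlen] using hi
    have hmem : l[i] ∈ List.range m' := hs.subset (List.getElem_mem hi')
    refine ⟨by simpa [hi'] using hmem, ?_⟩
    have hget := hl.get (i := i) (by simpa using hi) hi'
    simpa [hi'] using hget

theorem WEmb.refl' {α : Type u} {r : α → α → Prop} [Std.Refl r] (w : ℕ × (ℕ → α)) :
    WEmb r w w :=
  ⟨id, fun _ _ h _ => h, fun i hi => ⟨hi, Std.Refl.refl _⟩⟩

theorem WEmb.trans' {α : Type u} {r : α → α → Prop} [IsTrans α r] {w₁ w₂ w₃ : ℕ × (ℕ → α)}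
    (h₁ : WEmb r w₁ w₂) (h₂ : WEmb r w₂ w₃) : WEmb r w₁ w₃ := by
  obtain ⟨φ, hφ, hφ'⟩ := h₁
  obtain ⟨ψ, hψ, hψ'⟩ := h₂
  refine ⟨ψ ∘ φ, fun i j hij hj => hψ _ _ (hφ i j hij hj) (hφ' j hj).1, fun i hi => ?_⟩
  obtain ⟨h1, h2⟩ := hφ' i hi
  obtain ⟨h3, h4⟩ := hψ' _ h1
  exact ⟨h3, _root_.trans h2 h4⟩

instance {α : Type u} {r : α → α → Prop} [IsPreorder α r] :
    IsPreorder (ℕ × (ℕ → α)) (WEmb r) where
  refl := WEmb.refl'
  trans _ _ _ := WEmb.trans'

/-- Higman's lemma for words. -/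
theorem wemb_wqo {α : Type u} {r : α → α → Prop} [IsPreorder α r] (h : WellQuasiOrdered r) :
    WellQuasiOrdered (WEmb r) := by
  have h1 : (Set.univ : Set α).PartiallyWellOrderedOn r :=
    Set.partiallyWellOrderedOn_univ_iff.2 h
  have h2 := Set.PartiallyWellOrderedOn.partiallyWellOrderedOn_sublistForall₂ r h1
  intro w
  obtain ⟨m, n, hmn, hr⟩ := h2.exists_lt (f := fun n => (List.range (w n).1).map (w n).2)
    (fun n x _ => Set.mem_univ x)
  exact ⟨m, n, hmn, wemb_of_sublist hr⟩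

/-- Layered structure of `G` on the vertex set `s` with `N` types. -/
def Lay {V : Type u} (G : SimpleGraph V) (s : Set V) (N : ℕ) : Prop :=
  ∃ (τ : V → Fin N) (p q : V → ℕ) (R₁ R₂ S : Fin N → Fin N → Prop),
    ∀ u ∈ s, ∀ v ∈ s, u ≠ v →
      (p u < p v → (G.Adj u v ↔ R₁ (τ u) (τ v))) ∧
      (p u = p v → q u < q v → (G.Adj u v ↔ R₂ (τ u) (τ v))) ∧
      (p u = p v → q u = q v → (G.Adj u v ↔ S (τ u) (τ v)))

/-- Key step: an embedding of codes yields an induced embedding of graphs. -/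
theorem embed_of_code {V : Type u} {V' : Type v} [Fintype V] [Fintype V'] {G : SimpleGraph V}
    {G' : SimpleGraph V'} {N : ℕ} {τ : V → Fin N} {p q : V → ℕ} {τ' : V' → Fin N}
    {p' q' : V' → ℕ} {R₁ R₂ S : Fin N → Fin N → Prop}
    (h : ∀ u v, u ≠ v → (p u < p v → (G.Adj u v ↔ R₁ (τ u) (τ v))) ∧
      (p u = p v → q u < q v → (G.Adj u v ↔ R₂ (τ u) (τ v))) ∧
      (p u = p v → q u = q v → (G.Adj u v ↔ S (τ u) (τ v))))
    (h' : ∀ u v, u ≠ v → (p' u < p' v → (G'.Adj u v ↔ R₁ (τ' u) (τ' v))) ∧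
      (p' u = p' v → q' u < q' v → (G'.Adj u v ↔ R₂ (τ' u) (τ' v))) ∧
      (p' u = p' v → q' u = q' v → (G'.Adj u v ↔ S (τ' u) (τ' v))))
    {P Q : ℕ} (hP : ∀ v, p v < P) (hQ : ∀ v, q v < Q) (φ : ℕ → ℕ) (ψ : ℕ → ℕ → ℕ)
    (hφ : ∀ i j, i < j → j < P → φ i < φ j)
    (hψ : ∀ i < P, ∀ j k, j < k → k < Q → ψ i j < ψ i k)
    (hc : ∀ i < P, ∀ j < Q, ∀ t : Fin N,
      Nat.card {v : V // p v = i ∧ q v = j ∧ τ v = t} ≤
        Nat.card {v : V' // p' v = φ i ∧ q' v = ψ i j ∧ τ' v = t}) :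
    G ⊴ G' := by
  classical
  have hex : ∀ (i j : ℕ) (t : Fin N), Nonempty ({v : V // p v = i ∧ q v = j ∧ τ v = t} ↪
      {v : V' // p' v = φ i ∧ q' v = ψ i j ∧ τ' v = t}) := by
    intro i j t
    by_cases hij : i < P ∧ j < Q
    · have := hc i hij.1 j hij.2 t
      rw [Nat.card_eq_fintype_card, Nat.card_eq_fintype_card] at this
      exact Function.Embedding.nonempty_of_card_le this
    · have : IsEmpty {v : V // p v = i ∧ q v = j ∧ τ v = t} := by
        refine ⟨fun x => hij ⟨?_, ?_⟩⟩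
        · rw [← x.2.1]; exact hP _
        · rw [← x.2.2.1]; exact hQ _
      exact ⟨Function.Embedding.ofIsEmpty⟩
  let e := fun i j t => Classical.choice (hex i j t)
  let F : V → V' := fun v => (e (p v) (q v) (τ v) ⟨v, rfl, rfl, rfl⟩).1
  have hFp : ∀ v, p' (F v) = φ (p v) := fun v => (e (p v) (q v) (τ v) ⟨v, rfl, rfl, rfl⟩).2.1
  have hFq : ∀ v, q' (F v) = ψ (p v) (q v) :=
    fun v => (e (p v) (q v) (τ v) ⟨v, rfl, rfl, rfl⟩).2.2.1
  have hFt : ∀ v, τ' (F v) = τ v := fun v => (e (p v) (q v) (τ v) ⟨v, rfl, rfl, rfl⟩).2.2.2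
  have hφi : ∀ i j, i < P → j < P → φ i = φ j → i = j := by
    intro i j hi hj hij
    rcases lt_trichotomy i j with h1 | h1 | h1
    · exact absurd hij (hφ i j h1 hj).ne
    · exact h1
    · exact absurd hij.symm (hφ j i h1 hi).ne
  have hψi : ∀ k < P, ∀ i j, i < Q → j < Q → ψ k i = ψ k j → i = j := by
    intro k hk i j hi hj hij
    rcases lt_trichotomy i j with h1 | h1 | h1
    · exact absurd hij (hψ k hk i j h1 hj).ne
    · exact h1
    · exact absurd hij.symm (hψ k hk j i h1 hi).ne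
  have hinj : Function.Injective F := by
    intro a b hab
    have h1 : p a = p b := hφi _ _ (hP a) (hP b) (by rw [← hFp, ← hFp, hab])
    have h2 : q a = q b := by
      apply hψi (p a) (hP a) _ _ (hQ a) (hQ b)
      have := hFq a
      rw [hab, hFq b, ← h1] at this
      exact this.symm
    have h3 : τ a = τ b := by rw [← hFt, ← hFt, hab]
    have key : ∀ (i j : ℕ) (t : Fin N) (ha : p a = i ∧ q a = j ∧ τ a = t)
        (hb : p b = i ∧ q b = j ∧ τ b = t), (e i j t ⟨a, ha⟩).1 = (e i j t ⟨b, hb⟩).1 →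
        a = b := by
      intro i j t ha hb hh
      have := (e i j t).injective (Subtype.ext hh)
      exact congrArg Subtype.val this
    have hFb : F b = (e (p a) (q a) (τ a) ⟨b, h1.symm, h2.symm, h3.symm⟩).1 := by
      have : ∀ (i j : ℕ) (t : Fin N) (hi : p b = i) (hj : q b = j) (ht : τ b = t),
          F b = (e i j t ⟨b, hi, hj, ht⟩).1 := by
        intro i j t hi hj ht
        subst hi hj ht
        rfl
      exact this _ _ _ h1.symm h2.symm h3.symm
    exact key _ _ _ ⟨rfl, rfl, rfl⟩ ⟨h1.symm, h2.symm, h3.symm⟩ (by rw [← hFb]; exact hab)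
  have hadj : ∀ a b, a ≠ b → (p a < p b ∨ (p a = p b ∧ q a ≤ q b)) →
      (G'.Adj (F a) (F b) ↔ G.Adj a b) := by
    intro a b hab hc
    have hab' : F a ≠ F b := fun hh => hab (hinj hh)
    rcases hc with hc | ⟨hc1, hc2⟩
    · rw [(h a b hab).1 hc]
      rw [(h' _ _ hab').1 (by rw [hFp, hFp]; exact hφ _ _ hc (hP b)), hFt, hFt]
    · rcases hc2.lt_or_eq with hc2 | hc2
      · rw [(h a b hab).2.1 hc1 hc2]
        rw [(h' _ _ hab').2.1 (by rw [hFp, hFp, hc1])
          (by rw [hFq, hFq, ← hc1]; exact hψ _ (hP a) _ _ hc2 (hQ b)), hFt, hFt]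
      · rw [(h a b hab).2.2 hc1 hc2]
        rw [(h' _ _ hab').2.2 (by rw [hFp, hFp, hc1])
          (by rw [hFq, hFq, hc1, hc2]), hFt, hFt]
  refine ⟨⟨⟨F, hinj⟩, ?_⟩⟩
  intro a b
  change G'.Adj (F a) (F b) ↔ G.Adj a b
  by_cases hab : a = b
  · subst hab; simp
  · rcases lt_trichotomy (p a) (p b) with h1 | h1 | h1
    · exact hadj a b hab (Or.inl h1)
    · rcases le_total (q a) (q b) with h2 | h2
      · exact hadj a b hab (Or.inr ⟨h1, h2⟩)
      · rw [G'.adj_comm, G.adj_comm]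
        exact hadj b a (Ne.symm hab) (Or.inr ⟨h1.symm, h2⟩)
    · rw [G'.adj_comm, G.adj_comm]
      exact hadj b a (Ne.symm hab) (Or.inl h1)

/-- Layered graphs with a bounded number of types are well-quasi-ordered. -/
theorem lay_wqo (N : ℕ) {V : ℕ → Type u} [∀ n, Fintype (V n)] (G : ∀ n, SimpleGraph (V n))
    (hG : ∀ n, Lay (G n) Set.univ N) : ∃ m n, m < n ∧ G m ⊴ G n := by
  classical
  choose τ p q R₁ R₂ S h using hG
  -- bounds
  have hPex : ∀ n, ∃ P, ∀ v : V n, p n v < P := by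
    intro n
    refine ⟨(Finset.univ.sup (p n)) + 1, fun v => ?_⟩
    exact Nat.lt_succ_of_le (Finset.le_sup (f := p n) (Finset.mem_univ v))
  have hQex : ∀ n, ∃ Q, ∀ v : V n, q n v < Q := by
    intro n
    refine ⟨(Finset.univ.sup (q n)) + 1, fun v => ?_⟩
    exact Nat.lt_succ_of_le (Finset.le_sup (f := q n) (Finset.mem_univ v))
  choose P hP using hPex
  choose Q hQ using hQex
  -- letters
  have hletter : WellQuasiOrdered (fun a b : Fin N → ℕ => ∀ t, a t ≤ b t) :=
    WellQuasiOrdered.pi (fun _ => wellQuasiOrdered_le)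
  haveI : IsPreorder (Fin N → ℕ) (fun a b : Fin N → ℕ => ∀ t, a t ≤ b t) :=
    { refl := fun a t => le_rfl
      trans := fun a b c h1 h2 t => (h1 t).trans (h2 t) }
  have hinner := wemb_wqo hletter
  have houter := wemb_wqo hinner
  let Rel := (Fin N → Fin N → Prop)
  have hfin : WellQuasiOrdered (fun a b : Rel × Rel × Rel => a = b) :=
    Finite.wellQuasiOrdered _
  have hprod := hfin.prod houter
  let code : ∀ n, (Rel × Rel × Rel) × (ℕ × (ℕ → (ℕ × (ℕ → (Fin N → ℕ))))) := fun n =>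
    ((R₁ n, R₂ n, S n), (P n, fun i => (Q n, fun j t =>
      Nat.card {v : V n // p n v = i ∧ q n v = j ∧ τ n v = t})))
  obtain ⟨m, n, hmn, h1, h2⟩ := hprod code
  refine ⟨m, n, hmn, ?_⟩
  obtain ⟨φ, hφ, hφ'⟩ := h2
  have hR : R₁ m = R₁ n ∧ R₂ m = R₂ n ∧ S m = S n := by
    have := h1
    simp only [code, Prod.mk.injEq] at this
    exact this
  have hψex : ∀ i, ∃ ψ : ℕ → ℕ, i < P m →
      (∀ j k, j < k → k < Q m → ψ j < ψ k) ∧
      ∀ j < Q m, ∀ t : Fin N,
      Nat.card {v : V m // p m v = i ∧ q m v = j ∧ τ m v = t} ≤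
        Nat.card {v : V n // p n v = φ i ∧ q n v = ψ j ∧ τ n v = t} := by
    intro i
    by_cases hi : i < P m
    · obtain ⟨_, ψ, hψ, hψ'⟩ := hφ' i hi
      exact ⟨ψ, fun _ => ⟨hψ, fun j hj => (hψ' j hj).2⟩⟩
    · exact ⟨id, fun h => absurd h hi⟩
  choose ψ hψ using hψex
  refine embed_of_code (R₁ := R₁ m) (R₂ := R₂ m) (S := S m)
    (fun u v huv => h m u (Set.mem_univ _) v (Set.mem_univ _) huv) ?_ (hP m) (hQ m) φ ψ hφ
    (fun i hi => (hψ i hi).1) (fun i hi => (hψ i hi).2)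
  rw [hR.1, hR.2.1, hR.2.2]
  exact fun u v huv => h n u (Set.mem_univ _) v (Set.mem_univ _) huv

end Pool.Agent.V8H30.Wqo
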