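import Pool.Agent.V8H30.WqoBip

/-!
Triangle-free (P₁+2P₂)-free graphs with an odd cycle are layered.
-/

namespace Pool.Agent.V8H30.Wqo

open Set SimpleGraph

universe u

/-! ### Heptagons -/

theorem seven_bool : ∀ a b c d e g h : Bool,
    (a && b) = false → (b && c) = false → (c && d) = false → (d && e) = false →
    (e && g) = false → (g && h) = false → (h && a) = false →
    (a && d) = false → (b && e) = false → (c && g) = false → (d && h) = false →
    (e && a) = false → (g && b) = false → (h && c) = false →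
    (a || b || d || e) = true → (b || c || e || g) = true → (c || d || g || h) = true →
    (d || e || h || a) = true → (e || g || a || b) = true → (g || h || b || c) = true →
    (h || a || c || d) = true →
    ∃ i : Fin 7, (![a, b, c, d, e, g, h] i = false ∧ ![a, b, c, d, e, g, h] (i + 1) = true ∧
      ![a, b, c, d, e, g, h] (i + 2) = false ∧ ![a, b, c, d, e, g, h] (i + 3) = false ∧
      ![a, b, c, d, e, g, h] (i + 4) = false ∧ ![a, b, c, d, e, g, h] (i + 5) = false ∧
      ![a, b, c, d, e, g, h] (i + 6) = true) := by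
  intro a b c d e g h
  cases a <;> cases b <;> cases c <;> cases d <;> cases e <;> cases g <;> cases h <;>
    first
    | (intros; simp_all; done)
    | (intros; exact ⟨0, by decide⟩)
    | (intros; exact ⟨1, by decide⟩)
    | (intros; exact ⟨2, by decide⟩)
    | (intros; exact ⟨3, by decide⟩)
    | (intros; exact ⟨4, by decide⟩)
    | (intros; exact ⟨5, by decide⟩)
    | (intros; exact ⟨6, by decide⟩)

theorem seven_split : ∀ i j : Fin 7, j = i ∨ j = i + 1 ∨ j = i + 2 ∨ j = i + 3 ∨
    i = j + 1 ∨ i = j + 2 ∨ i = j + 3 := by decide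

theorem seven_cover : ∀ i j : Fin 7, j = i ∨ j = i + 1 ∨ j = i + 2 ∨ j = i + 3 ∨ j = i + 4 ∨
    j = i + 5 ∨ j = i + 6 := by decide

theorem q43 : ∀ i : Fin 7, i + 4 + 3 = i := by decide
theorem q63 : ∀ i : Fin 7, i + 6 + 3 = i + 2 := by decide
theorem q42 : ∀ i : Fin 7, i + 4 + 2 = i + 6 := by decide
theorem q22 : ∀ i : Fin 7, i + 2 + 2 = i + 4 := by decide
theorem q2 : ∀ i : Fin 7, i + 2 = i + 1 + 1 := by decide
theorem qn0 : ∀ i : Fin 7, ¬ (i = i + 1 ∨ i = i + 6) := by decide

section Seven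

variable {V : Type u} {G : SimpleGraph V} (hG : Good G)
  (no3 : ∀ a b c, G.Adj a b → G.Adj b c → ¬ G.Adj c a)
include hG no3

theorem Good.lay_seven
    (no5 : ∀ a b c d e, G.Adj a b → G.Adj b c → G.Adj c d → G.Adj d e → ¬ G.Adj e a)
    (k : Fin 7 → V) (hk : ∀ i, G.Adj (k i) (k (i + 1))) : Lay G Set.univ 7 := by
  classical
  have hk2 : ∀ i, ¬ G.Adj (k i) (k (i + 2)) := by
    intro i h
    have := hk (i + 1)
    rw [add_assoc] at this
    exact no3 _ _ _ (hk i) this h.symm
  have e1 : ∀ i : Fin 7, i + 3 + 1 = i + 4 := by decide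
  have e2 : ∀ i : Fin 7, i + 4 + 1 = i + 5 := by decide
  have e3 : ∀ i : Fin 7, i + 5 + 1 = i + 6 := by decide
  have e4 : ∀ i : Fin 7, i + 6 + 1 = i := by decide
  have f1 : ∀ i, G.Adj (k (i + 3)) (k (i + 4)) := fun i => e1 i ▸ hk (i + 3)
  have f2 : ∀ i, G.Adj (k (i + 4)) (k (i + 5)) := fun i => e2 i ▸ hk (i + 4)
  have f3 : ∀ i, G.Adj (k (i + 5)) (k (i + 6)) := fun i => e3 i ▸ hk (i + 5)
  have f4 : ∀ i, G.Adj (k (i + 6)) (k i) := fun i => by have := hk (i + 6); rwa [e4] at this
  have f0 : ∀ i, G.Adj (k (i + 1)) (k (i + 2)) := fun i => by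
    have := hk (i + 1); rwa [add_assoc] at this
  have f5 : ∀ i, G.Adj (k (i + 2)) (k (i + 3)) := fun i => by
    have := hk (i + 2); rwa [add_assoc] at this
  have hk3 : ∀ i, ¬ G.Adj (k i) (k (i + 3)) := by
    intro i h
    exact no5 _ _ _ _ _ h (f1 i) (f2 i) (f3 i) (f4 i)
  -- types
  have htype : ∀ v, ∃ i : Fin 7, ∀ j, G.Adj v (k j) ↔ (j = i + 1 ∨ j = i + 6) := by
    intro v
    have g1 : ∀ i, ¬ (G.Adj v (k i) ∧ G.Adj v (k (i + 1))) := by
      rintro i ⟨h1, h2⟩
      exact no3 _ _ _ h1 (hk i) h2.symm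
    have g2 : ∀ i, ¬ (G.Adj v (k i) ∧ G.Adj v (k (i + 3))) := by
      rintro i ⟨h1, h2⟩
      exact no5 _ _ _ _ _ h1 (hk i) (f0 i) (f5 i) h2.symm
    have g3 : ∀ i, G.Adj v (k i) ∨ G.Adj v (k (i + 1)) ∨ G.Adj v (k (i + 3)) ∨
        G.Adj v (k (i + 4)) := by
      intro i
      by_contra hcon
      push Not at hcon
      obtain ⟨h1, h2, h3, h4⟩ := hcon
      refine hG.p v (k i) (k (i + 1)) (k (i + 3)) (k (i + 4)) (hk i) (f1 i) (hk3 i) ?_ ?_ ?_
        h1 h2 h3 h4
      · intro h
        have := hk3 (i + 4)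
        rw [q43] at this
        exact this h.symm
      · have := hk2 (i + 1)
        rwa [add_assoc] at this
      · have := hk3 (i + 1)
        rwa [add_assoc] at this
    have key := seven_bool (decide (G.Adj v (k 0))) (decide (G.Adj v (k 1)))
      (decide (G.Adj v (k 2))) (decide (G.Adj v (k 3))) (decide (G.Adj v (k 4)))
      (decide (G.Adj v (k 5))) (decide (G.Adj v (k 6)))
      (by simpa using g1 0) (by simpa using g1 1) (by simpa using g1 2) (by simpa using g1 3)
      (by simpa using g1 4) (by simpa using g1 5) (by simpa using g1 6)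
      (by simpa using g2 0) (by simpa using g2 1) (by simpa using g2 2) (by simpa using g2 3)
      (by simpa using g2 4) (by simpa using g2 5) (by simpa using g2 6)
      (by simpa [or_assoc] using g3 0) (by simpa [or_assoc] using g3 1)
      (by simpa [or_assoc] using g3 2) (by simpa [or_assoc] using g3 3)
      (by simpa [or_assoc] using g3 4) (by simpa [or_assoc] using g3 5)
      (by simpa [or_assoc] using g3 6)
    obtain ⟨i, h0, h1, h2, h3, h4, h5, h6⟩ := key
    have hval : ∀ j, ![decide (G.Adj v (k 0)), decide (G.Adj v (k 1)), decide (G.Adj v (k 2)),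
        decide (G.Adj v (k 3)), decide (G.Adj v (k 4)), decide (G.Adj v (k 5)),
        decide (G.Adj v (k 6))] j = decide (G.Adj v (k j)) := by
      intro j; fin_cases j <;> rfl
    rw [hval] at h0 h1 h2 h3 h4 h5 h6
    simp only [decide_eq_false_iff_not, decide_eq_true_eq] at h0 h1 h2 h3 h4 h5 h6
    refine ⟨i, fun j => ?_⟩
    rcases seven_cover i j with rfl | rfl | rfl | rfl | rfl | rfl | rfl
    · exact ⟨fun h => absurd h h0, fun h => absurd h (qn0 _)⟩
    · exact ⟨fun _ => Or.inl rfl, fun _ => h1⟩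
    · exact ⟨fun h => absurd h h2, fun h => absurd h (by simp)⟩
    · exact ⟨fun h => absurd h h3, fun h => absurd h (by simp)⟩
    · exact ⟨fun h => absurd h h4, fun h => absurd h (by simp)⟩
    · exact ⟨fun h => absurd h h5, fun h => absurd h (by simp)⟩
    · exact ⟨fun _ => Or.inr rfl, fun _ => h6⟩
  choose τ hτ using htype
  have hmain : ∀ u v, G.Adj u v ↔ (τ v = τ u + 1 ∨ τ u = τ v + 1) := by
    -- nonadjacency
    have n0 : ∀ u v, τ v = τ u → ¬ G.Adj u v := by
      intro u v h huv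
      have h1 := (hτ u (τ u + 1)).2 (Or.inl rfl)
      have h2 := (hτ v (τ u + 1)).2 (by rw [h]; exact Or.inl rfl)
      exact no3 _ _ _ huv h2 h1.symm
    have n2 : ∀ u v, τ v = τ u + 2 → ¬ G.Adj u v := by
      intro u v h huv
      have h1 := (hτ u (τ u + 1)).2 (Or.inl rfl)
      have h2 := (hτ v (τ u + 1)).2 (by
        rw [h]; right; generalize τ u = i; revert i; decide)
      exact no3 _ _ _ huv h2 h1.symm
    have n3 : ∀ u v, τ v = τ u + 3 → ¬ G.Adj u v := by
      intro u v h huv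
      have h1 := (hτ u (τ u + 6)).2 (Or.inr rfl)
      have h2 := (hτ v (τ u + 4)).2 (by
        rw [h]; left; generalize τ u = i; revert i; decide)
      exact no5 _ _ _ _ _ huv h2 (f2 _) (f3 _) h1.symm
    have p1 : ∀ u v, τ v = τ u + 1 → G.Adj u v := by
      intro u v h
      by_contra huv
      have hu : ∀ j, G.Adj u (k j) ↔ (j = τ u + 1 ∨ j = τ u + 6) := hτ u
      have hv : ∀ j, G.Adj v (k j) ↔ (j = τ u + 1 + 1 ∨ j = τ u + 1 + 6) := by
        intro j; rw [← h]; exact hτ v j
      generalize τ u = i at hu hv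
      refine hG.p (k (i + 4)) u (k (i + 6)) v (k (i + 2)) ?_ ?_ huv ?_ ?_ ?_ ?_ ?_ ?_ ?_
      · rw [hu]; exact Or.inr rfl
      · rw [hv]; left; exact q2 i
      · rw [hu]; clear hu hv; revert i; decide
      · rw [G.adj_comm, hv]; clear hu hv; revert i; decide
      · intro hh
        have := hk3 (i + 6)
        rw [q63] at this
        exact this hh
      · rw [G.adj_comm, hu]; clear hu hv; revert i; decide
      · have := hk2 (i + 4)
        rwa [q42] at this
      · rw [G.adj_comm, hv]; clear hu hv; revert i; decide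
      · intro hh
        have := hk2 (i + 2)
        rw [q22] at this
        exact this hh.symm
    intro u v
    have arith : ∀ i j : Fin 7, (j = i → ¬ (j = i + 1 ∨ i = j + 1)) ∧
        (j = i + 2 → ¬ (j = i + 1 ∨ i = j + 1)) ∧ (j = i + 3 → ¬ (j = i + 1 ∨ i = j + 1)) ∧
        (i = j + 2 → ¬ (j = i + 1 ∨ i = j + 1)) ∧ (i = j + 3 → ¬ (j = i + 1 ∨ i = j + 1)) := by
      decide
    obtain ⟨a0, a2, a3, a2', a3'⟩ := arith (τ u) (τ v)
    rcases seven_split (τ u) (τ v) with h | h | h | h | h | h | h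
    · exact ⟨fun hh => absurd hh (n0 u v h), fun hh => absurd hh (a0 h)⟩
    · exact ⟨fun _ => Or.inl h, fun _ => p1 u v h⟩
    · exact ⟨fun hh => absurd hh (n2 u v h), fun hh => absurd hh (a2 h)⟩
    · exact ⟨fun hh => absurd hh (n3 u v h), fun hh => absurd hh (a3 h)⟩
    · exact ⟨fun _ => Or.inr h, fun _ => (p1 v u h).symm⟩
    · exact ⟨fun hh => absurd hh.symm (n2 v u h), fun hh => absurd hh (a2' h)⟩
    · exact ⟨fun hh => absurd hh.symm (n3 v u h), fun hh => absurd hh (a3' h)⟩
  exact ⟨τ, fun _ => 0, fun _ => 0, fun i j => j = i + 1 ∨ i = j + 1,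
    fun i j => j = i + 1 ∨ i = j + 1, fun i j => j = i + 1 ∨ i = j + 1,
    fun u _ v _ _ => ⟨fun _ => hmain u v, fun _ _ => hmain u v, fun _ _ => hmain u v⟩⟩

end Seven

end Pool.Agent.V8H30.Wqo
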