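import Pool.Agent.V8H30.WqoClique2

/-!
Assembly: graphs containing a triangle.
-/

namespace Pool.Agent.V8H30.Wqo

open Set SimpleGraph

universe u

/-- Uniform bound for the number of types of graphs containing a triangle. -/
def nTri : ℕ := max 3 (max (gN (Fintype.card (Option (Fin 4) × (Fin 4 → Fin 4 → Bool))) 4)
  (gN (Fintype.card (Option (Fin 3) × Bool × (Fin 3 → Bool))) 9))

theorem Good.lay_triangle {V : Type u} [Fintype V] {G : SimpleGraph V} (hG : Good G)
    (ht : ∃ a b c, G.Adj a b ∧ G.Adj b c ∧ G.Adj a c) : Lay G Set.univ nTri := by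
  classical
  obtain ⟨a, b, c, ab, bc, ac⟩ := ht
  obtain ⟨K, hK, hKmax⟩ := Finset.exists_max_image
    (Finset.univ.filter (fun K : Finset V => G.IsClique (K : Set V))) Finset.card
    ⟨∅, by simp⟩
  simp only [Finset.mem_filter, Finset.mem_univ, true_and] at hK hKmax
  have h3 : 3 ≤ K.card := by
    have hab := ab.ne
    have hbc := bc.ne
    have hac := ac.ne
    have h1 : ({a, b, c} : Finset V).card = 3 := by
      rw [Finset.card_eq_three]
      exact ⟨a, b, c, hab, hac, hbc, rfl⟩
    rw [← h1]
    apply hKmax
    intro x hx y hy hxy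
    simp only [Finset.coe_insert, Finset.coe_singleton, Set.mem_insert_iff,
      Set.mem_singleton_iff] at hx hy
    rcases hx with rfl | rfl | rfl <;> rcases hy with rfl | rfl | rfl <;>
      first | exact absurd rfl hxy | assumption | (apply SimpleGraph.Adj.symm; assumption)
  let e := K.equivFin.symm
  have main : ∀ n, K.card = n → ∃ k : Fin n → V, Function.Injective k ∧
      Set.range k = (K : Set V) := by
    rintro n rfl
    refine ⟨fun i => (e i).1, fun i j h => e.injective (Subtype.ext h), ?_⟩
    ext x
    constructor
    · rintro ⟨i, rfl⟩; exact (e i).2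
    · intro hx; exact ⟨e.symm ⟨x, hx⟩, by simp⟩
  have main2 : ∀ n (k : Fin n → V), K.card = n → Function.Injective k →
      Set.range k = (K : Set V) → ∃ c, Frame G n k c := by
    intro n k hn hk hr
    apply hG.exists_frame n k hk
    · intro i j hij
      exact hK (hr ▸ ⟨i, rfl⟩ : k i ∈ (K : Set V)) (hr ▸ ⟨j, rfl⟩ : k j ∈ (K : Set V))
        (fun h => hij (hk h))
    · intro v hv
      by_contra hcon
      push Not at hcon
      rw [hr] at hv
      have hc : G.IsClique ((insert v K : Finset V) : Set V) := by
        rw [Finset.coe_insert, SimpleGraph.isClique_insert]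
        refine ⟨hK, ?_⟩
        intro x hx _
        rw [← hr] at hx
        obtain ⟨i, rfl⟩ := hx
        exact hcon i
      have := hKmax _ hc
      rw [Finset.card_insert_of_notMem (by simpa using hv)] at this
      omega
  by_cases h5 : 5 ≤ K.card
  · obtain ⟨k, hk, hr⟩ := main _ rfl
    obtain ⟨c', hF⟩ := main2 _ k rfl hk hr
    exact (hG.lay_five hF h5).mono (le_max_left _ _)
  · by_cases h4 : K.card = 4
    · obtain ⟨k, hk, hr⟩ := main 4 h4
      obtain ⟨c', hF⟩ := main2 4 k h4 hk hr
      exact (hG.lay_four hF).mono ((le_max_left _ _).trans (le_max_right _ _))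
    · have h3' : K.card = 3 := by omega
      obtain ⟨k, hk, hr⟩ := main 3 h3'
      obtain ⟨c', hF⟩ := main2 3 k h3' hk hr
      refine (hG.lay_three hF ?_).mono ((le_max_right _ _).trans (le_max_right _ _))
      intro a b c d ab ac ad bc bd cd
      have h1 : ({a, b, c, d} : Finset V).card = 4 := by
        rw [Finset.card_insert_of_notMem, Finset.card_insert_of_notMem,
          Finset.card_insert_of_notMem, Finset.card_singleton]
        · simpa using cd.ne
        · simp [bc.ne, bd.ne]
        · simp [ab.ne, ac.ne, ad.ne]
      have := hKmax ({a, b, c, d} : Finset V) (by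
        intro x hx y hy hxy
        simp only [Finset.coe_insert, Finset.coe_singleton, Set.mem_insert_iff,
          Set.mem_singleton_iff] at hx hy
        rcases hx with rfl | rfl | rfl | rfl <;> rcases hy with rfl | rfl | rfl | rfl <;>
          first | exact absurd rfl hxy | assumption | (apply SimpleGraph.Adj.symm; assumption))
      omega

end Pool.Agent.V8H30.Wqo
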